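import Pool.Agent.W868.Defs

/-!
# Countably branching trees in a model of set theory: definitions

Everything is evaluated in a transitive model `M` of ZF. Functions are sets of ordered pairs.
The trees have one kind of leaf, so that the algebras are pointed: without leaves both initial
algebras are empty.
-/

set_option autoImplicit false

namespace Pool.Agent.R602.WT

open Pool.Agent.W868
open ZFSet (pair)

/-- `v` is a sequence `ω → A` of the model. -/
def IsSeq (M : Set ZFSet.{0}) (A v : ZFSet.{0}) : Prop := v ∈ M ∧ ZFSet.IsFunc ZFSet.omega A v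

/-- In `M`, `(A, a, α)` is an algebra: `A` is a set, `a` is an element of `A` (the leaf) and `α` is
a map from the set of the sequences `ω → A` to `A` (the operation `node`). -/
structure IsAlg (M : Set ZFSet.{0}) (A a α : ZFSet.{0}) : Prop where
  A_mem : A ∈ M
  a_mem : a ∈ A
  α_mem : α ∈ M
  pairs : ∀ z ∈ α, ∃ v b, z = pair v b ∧ IsSeq M A v ∧ b ∈ A
  total : ∀ v, IsSeq M A v → ∃! b, pair v b ∈ α

/-- `h` is a homomorphism of `M` from `(A, a, α)` to `(B, b, β)`: if `w = h ∘ v`, then
`h (α v) = β w`. -/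
structure IsHom (M : Set ZFSet.{0}) (A a α B b β h : ZFSet.{0}) : Prop where
  mem : h ∈ M
  func : ZFSet.IsFunc A B h
  point : pair a b ∈ h
  node : ∀ v w x y, IsSeq M A v → IsSeq M B w →
    (∀ n p q, pair n p ∈ v → pair n q ∈ w → pair p q ∈ h) →
    pair v x ∈ α → pair w y ∈ β → pair x y ∈ h

/-- `p` is a finitely supported permutation of `ω`: there is a natural number `k` with `p n = n`
for all `n ≥ k`. -/
def IsFinPerm (p : ZFSet.{0}) : Prop :=
  IsBij ZFSet.omega ZFSet.omega p ∧
    ∃ k ∈ ZFSet.omega, ∀ n ∈ ZFSet.omega, n ∉ k → pair n n ∈ p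

/-- The equations `α v = α (v ∘ p)` for all finitely supported permutations `p`. -/
def IsWeak (M : Set ZFSet.{0}) (A α : ZFSet.{0}) : Prop :=
  ∀ v w, IsSeq M A v → IsSeq M A w → ∀ p ∈ M, IsFinPerm p →
    (∀ n m a, pair n m ∈ p → pair m a ∈ v → pair n a ∈ w) →
    ∀ b, pair v b ∈ α → pair w b ∈ α

/-- In `M`, `(W, w, ν)` is an initial algebra: `W` is the set of the countably branching trees. -/
def IsTrees (M : Set ZFSet.{0}) (W w ν : ZFSet.{0}) : Prop :=
  IsAlg M W w ν ∧ ∀ A a α, IsAlg M A a α → ∃! h, IsHom M W w ν A a α h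

/-- In `M`, `(T, t, τ)` is an initial object among the algebras with the equations: `T` is the set
of the countably branching weakly unordered trees. -/
def IsWeakTrees (M : Set ZFSet.{0}) (T t τ : ZFSet.{0}) : Prop :=
  IsAlg M T t τ ∧ IsWeak M T τ ∧
    ∀ A a α, IsAlg M A a α → IsWeak M A α → ∃! h, IsHom M T t τ A a α h

end Pool.Agent.R602.WT
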