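import Pool.Agent.R602.WT.Perm

/-!
# The homomorphism is not surjective
-/

set_option autoImplicit false
set_option linter.unreachableTactic false
set_option linter.unusedTactic false
set_option linter.unusedSectionVars false

namespace Pool.Agent.R602.WT

open Pool.Agent.W868
open ZFSet (pair)

/-- `w` is the characteristic function of `a`. -/
def Ch (T t a w : ZFSet.{0}) : Prop := ZFSet.IsFunc ZFSet.omega T w ∧
  ∀ k ∈ ZFSet.omega, (k ∈ a → pair k t ∈ w) ∧ (k ∉ a → pair k ∅ ∈ w)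

theorem Ch.right_unique {T t a w w' : ZFSet.{0}} (h : Ch T t a w) (h' : Ch T t a w') :
    w = w' := by
  refine func_ext h.1 h'.1 fun k b hb => ?_
  have hk := (func_mem h.1 hb).1
  by_cases ha : k ∈ a
  · rw [(h.1.2 k hk).unique hb ((h.2 k hk).1 ha)]
    exact (h'.2 k hk).1 ha
  · rw [(h.1.2 k hk).unique hb ((h.2 k hk).2 ha)]
    exact (h'.2 k hk).2 ha

theorem Ch.sub {T t a a' w : ZFSet.{0}} (ht : t ≠ ∅) (h : Ch T t a w) (h' : Ch T t a' w)
    (ha : a ⊆ ZFSet.omega) : a ⊆ a' := by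
  intro k hk
  by_contra hc
  exact ht ((h.1.2 k (ha hk)).unique ((h.2 k (ha hk)).1 hk) ((h'.2 k (ha hk)).2 hc))

theorem IsPm.func {π : FS} {v w A : ZFSet.{0}} (h : IsPm π v w)
    (hv : ZFSet.IsFunc ZFSet.omega A v) : ZFSet.IsFunc ZFSet.omega A w := by
  refine ⟨fun z hz => ?_, fun a ha => ?_⟩
  · obtain ⟨n, b, rfl, hb⟩ := (h z).1 hz
    exact ZFSet.mem_prod.2 ⟨_, nat_mem_omega n, b, (func_mem hv hb).2, rfl⟩
  · obtain ⟨n, rfl⟩ := mem_omega_iff.1 ha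
    obtain ⟨b, hb, hb'⟩ := hv.2 _ (nat_mem_omega (π.1 n))
    exact ⟨b, h.iff.2 hb, fun c hc => hb' c (h.iff.1 hc)⟩

theorem nat_mem_rl {x : X} {n k : ℕ} {π : FS} : nat k ∈ rl' x n π ↔ x n (π.1 k) = true :=
  nat_mem_st

theorem rl_shift {x : X} {n k : ℕ} {π : FS} : nat (π.1 k) ∈ rl' x n 1 ↔ nat k ∈ rl' x n π := by
  rw [nat_mem_rl, nat_mem_rl]
  exact Iff.rfl

theorem rl_sub {x : X} {n : ℕ} {π : FS} : rl' x n π ⊆ ZFSet.omega := by
  intro z hz
  obtain ⟨k, -, rfl⟩ := mem_st.1 hz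
  exact nat_mem_omega k

theorem fsE_iff {x : X} {n : ℕ} {T t v w : ZFSet.{0}} (hv : Ch T t (rl' x n 1) v) :
    FsE v w ↔ ∃ π, Ch T t (rl' x n π) w := by
  constructor
  · rintro ⟨π, hπ⟩
    refine ⟨π, hπ.func hv.1, fun k hk => ?_⟩
    obtain ⟨k, rfl⟩ := mem_omega_iff.1 hk
    have h1 := hv.2 _ (nat_mem_omega (π.1 k))
    rw [rl_shift] at h1
    exact ⟨fun h => hπ.iff.2 (h1.1 h), fun h => hπ.iff.2 (h1.2 h)⟩
  · rintro ⟨π, hw⟩
    have key : ∀ k b, pair (nat k) b ∈ w ↔ pair (nat (π.1 k)) b ∈ v := by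
      intro k b
      have h1 := hv.2 _ (nat_mem_omega (π.1 k))
      rw [rl_shift] at h1
      have h3 := hw.2 _ (nat_mem_omega k)
      by_cases hk : nat k ∈ rl' x n π
      · constructor
        · intro hb
          rw [(hw.1.2 _ (nat_mem_omega k)).unique hb (h3.1 hk)]
          exact h1.1 hk
        · intro hb
          rw [(hv.1.2 _ (nat_mem_omega _)).unique hb (h1.1 hk)]
          exact h3.1 hk
      · constructor
        · intro hb
          rw [(hw.1.2 _ (nat_mem_omega k)).unique hb (h3.2 hk)]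
          exact h1.2 hk
        · intro hb
          rw [(hv.1.2 _ (nat_mem_omega _)).unique hb (h1.2 hk)]
          exact h3.2 hk
    refine ⟨π, fun z => ⟨fun hz => ?_, ?_⟩⟩
    · obtain ⟨a, ha, b, -, rfl⟩ := ZFSet.mem_prod.1 (hw.1.1 hz)
      obtain ⟨k, rfl⟩ := mem_omega_iff.1 ha
      exact ⟨k, b, rfl, (key k b).1 hz⟩
    · rintro ⟨k, b, rfl, hb⟩
      exact (key k b).2 hb

theorem exists_ch {M : Set ZFSet.{0}} (hM : IsZF M) {T t a : ZFSet.{0}} (hT : T ∈ M)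
    (h0 : ∅ ∈ T) (ht : t ∈ T) (ha : a ∈ M) : ∃ w, IsSeq M T w ∧ Ch T t a w := by
  have hB := hM.base
  have hom := hM.infinity
  have hemp := hM.empty_mem
  have htM := hM.trans _ hT _ ht
  have h1 : Dfn M M fun w : Fin 2 → ZFSet.{0} => (w 0 ∈ a ∧ w 1 = t) ∨ (w 0 ∉ a ∧ w 1 = ∅) := (by
      (repeat' first
        | assumption
        | exact DfnF.proj _
        | exact DfnF.const (by assumption)
        | apply hB.isFunc' | apply hB.isBij'
        | apply Dfn.iff | apply Dfn.not | apply Dfn.and | apply Dfn.or | apply Dfn.imp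
        | apply hB.bex | apply hB.ball | apply hB.subset'
        | apply Dfn.ex | apply Dfn.all | apply Dfn.eq | apply Dfn.mem | apply hB.pair'
        | apply hB.single'))
  obtain ⟨w, hw, hw1, hw2⟩ := hM.rel_mem hom hT
    (Q := fun k b => (k ∈ a ∧ b = t) ∨ (k ∉ a ∧ b = ∅)) h1
  have hf : ZFSet.IsFunc ZFSet.omega T w := by
    refine ⟨hw1, fun k hk => ?_⟩
    by_cases hka : k ∈ a
    · refine ⟨t, (hw2 _ _).2 ⟨hk, ht, Or.inl ⟨hka, rfl⟩⟩, fun b hb => ?_⟩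
      rcases ((hw2 _ _).1 hb).2.2 with h | h
      · exact h.2
      · exact absurd hka h.1
    · refine ⟨∅, (hw2 _ _).2 ⟨hk, h0, Or.inr ⟨hka, rfl⟩⟩, fun b hb => ?_⟩
      rcases ((hw2 _ _).1 hb).2.2 with h | h
      · exact absurd h.1 hka
      · exact h.2
  exact ⟨w, ⟨hw, hf⟩, hf, fun k hk => ⟨fun h => (hw2 _ _).2 ⟨hk, ht, Or.inl ⟨h, rfl⟩⟩,
    fun h => (hw2 _ _).2 ⟨hk, h0, Or.inr ⟨h, rfl⟩⟩⟩⟩

theorem main {M : Set ZFSet.{0}} {x : X} {S B : ZFSet.{0}} (h : IsTr M x S B) :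
    ∃ W w ν T t τ g, IsTrees M W w ν ∧ IsWeakTrees M T t τ ∧ IsHom M W w ν T t τ g ∧
      ∃ y ∈ T, ∀ z ∈ W, pair z y ∉ g := by
  have hM := h.zf
  have hB := hM.base
  have hom := hM.infinity
  have hemp := hM.empty_mem
  have hSM := h.S_mem
  obtain ⟨W, ν, hW⟩ := exists_TA hM (rl_eq M) h.B_mem h.B_empty fun v hv => by
    obtain ⟨s, hs, h1⟩ := h.B_sgl v hv.1 hv.2
    exact ⟨s, hs, fun w _ => (h1 w).trans eq_comm⟩
  obtain ⟨T, τ, hT⟩ := exists_TA hM (rl_FsE hM) h.B_mem h.B_empty fun v hv => by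
    obtain ⟨s, hs, h1⟩ := h.B_cls v hv.1 hv.2
    exact ⟨s, hs, fun w _ => h1 w⟩
  have hW' := isTrees hM hW
  have hT' := isWeakTrees hM hT
  obtain ⟨g, hg, -⟩ := hW'.2 T ∅ τ hT'.1
  have hWM := hW.T_mem
  have hTM := hT.T_mem
  have hgM := hg.mem
  refine ⟨W, ∅, ν, T, ∅, τ, g, hW', hT', hg, ?_⟩
  -- the trees with one node
  have hv0 : IsSeq M T (ZFSet.prod ZFSet.omega {∅}) := by
    refine ⟨hM.prod_mem hom (hM.single_mem hemp), fun z hz => ?_, fun k hk => ?_⟩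
    · obtain ⟨k, hk, b, hb, rfl⟩ := ZFSet.mem_prod.1 hz
      rw [ZFSet.mem_singleton.1 hb]
      exact ZFSet.mem_prod.2 ⟨k, hk, ∅, hT.emp, rfl⟩
    · refine ⟨∅, ZFSet.pair_mem_prod.2 ⟨hk, ZFSet.mem_singleton.2 rfl⟩, fun b hb => ?_⟩
      exact ZFSet.mem_singleton.1 (ZFSet.pair_mem_prod.1 hb).2
  obtain ⟨t1, ht1, ht1c⟩ := hT.cls _ hv0
  have ht1M := hM.trans _ hTM _ ht1
  have hne : t1 ≠ ∅ := by
    rintro rfl
    exact ZFSet.notMem_empty _ ((ht1c _ hv0.1).2 ((rl_FsE hM).refl _ _ hv0.2))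
  -- the sequence of the classes
  have d1 : Dfn M M fun w : Fin 2 → ZFSet.{0} => ∀ u ∈ M, (u ∈ w 1 ↔ ∃ a ∈ M, pair (w 0) a ∈ S ∧
      ZFSet.IsFunc ZFSet.omega T u ∧
        ∀ k ∈ ZFSet.omega, (k ∈ a → pair k t1 ∈ u) ∧ (k ∉ a → pair k ∅ ∈ u)) := (by
            (repeat' first
              | assumption
              | exact DfnF.proj _
              | exact DfnF.const (by assumption)
              | apply hB.isFunc' | apply hB.isBij'
              | apply Dfn.iff | apply Dfn.not | apply Dfn.and | apply Dfn.or | apply Dfn.imp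
              | apply hB.bex | apply hB.ball | apply hB.subset'
              | apply Dfn.ex | apply Dfn.all | apply Dfn.eq | apply Dfn.mem | apply hB.pair'
              | apply hB.single'))
  obtain ⟨s, hs, hs1, hs2⟩ := hM.rel_mem hom hTM
    (Q := fun n c => ∀ u ∈ M, (u ∈ c ↔ ∃ a ∈ M, pair n a ∈ S ∧ Ch T t1 a u)) d1
  have hSa : ∀ (n : ℕ) (a : ZFSet.{0}), pair (nat n) a ∈ S ↔ ∃ π, a = rl' x n π := by
    intro n a
    rw [h.mem_S]
    constructor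
    · rintro ⟨m, π, e⟩
      obtain ⟨e1, rfl⟩ := ZFSet.pair_inj.1 e
      exact ⟨π, by rw [nat_injective e1]⟩
    · rintro ⟨π, rfl⟩
      exact ⟨n, π, rfl⟩
  have hcl : ∀ n : ℕ, ∃ c, pair (nat n) c ∈ s ∧ c ≠ ∅ := by
    intro n
    have haM : rl' x n 1 ∈ M :=
      (hM.of_pair_mem (hM.trans _ hSM _ ((hSa n _).2 ⟨1, rfl⟩))).2
    obtain ⟨v, hv, hvc⟩ := exists_ch hM hTM hT.emp ht1 haM
    obtain ⟨c, hc, hcc⟩ := hT.cls v hv
    refine ⟨c, (hs2 _ _).2 ⟨nat_mem_omega n, hc, fun u hu => ?_⟩, ?_⟩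
    · rw [hcc u hu, fsE_iff hvc]
      constructor
      · rintro ⟨π, hπ⟩
        have h1 := (hSa n _).2 ⟨π, rfl⟩
        exact ⟨_, (hM.of_pair_mem (hM.trans _ hSM _ h1)).2, h1, hπ⟩
      · rintro ⟨a, -, h1, h2⟩
        obtain ⟨π, rfl⟩ := (hSa n a).1 h1
        exact ⟨π, h2⟩
    · rintro rfl
      exact ZFSet.notMem_empty _ ((hcc v hv.1).2 ((rl_FsE hM).refl _ _ hv.2))
  have hsf : ZFSet.IsFunc ZFSet.omega T s := by
    refine ⟨hs1, fun n hn => ?_⟩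
    obtain ⟨n, rfl⟩ := mem_omega_iff.1 hn
    obtain ⟨c, hc, -⟩ := hcl n
    refine ⟨c, hc, fun d hd => ?_⟩
    obtain ⟨-, hcT, hc'⟩ := (hs2 _ _).1 hc
    obtain ⟨-, hdT, hd'⟩ := (hs2 _ _).1 hd
    ext z
    constructor
    · intro hz
      have hzM := hM.trans _ (hM.trans _ hTM _ hdT) _ hz
      exact (hc' z hzM).2 ((hd' z hzM).1 hz)
    · intro hz
      have hzM := hM.trans _ (hM.trans _ hTM _ hcT) _ hz
      exact (hd' z hzM).2 ((hc' z hzM).1 hz)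
  obtain ⟨t, ht, htc⟩ := hT.cls s ⟨hs, hsf⟩
  have hst : s ∈ t := (htc s hs).2 ((rl_FsE hM).refl _ _ hsf)
  -- preimages
  have hpre : ∀ z ∈ W, ∀ c, pair z c ∈ g → c ≠ ∅ → ∃ u y, IsSeq M W u ∧ IsSeq M T y ∧
      (∀ w ∈ M, (w ∈ z ↔ u = w)) ∧ (∀ w ∈ M, (w ∈ c ↔ FsE y w)) ∧
      ∀ n p q, pair n p ∈ u → (pair n q ∈ y ↔ pair p q ∈ g) := by
    intro z hz c hc hcne
    rcases hW.cases z hz with rfl | ⟨u, hu, hucl⟩
    · exact absurd ((hg.func.2 _ hz).unique hc hg.point) hcne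
    · obtain ⟨y, hy, hy'⟩ := exists_comp hM hWM hTM hgM hu hg.func.1
        fun n p hp => hg.func.2 p (func_mem hu.2 hp).2
      obtain ⟨c', hc', -⟩ := hT'.1.total y hy
      have h1 : pair z c' ∈ g := hg.node u y z c' hu hy (fun n p q hp hq => (hy' n p q hp).1 hq)
        ((hW.mem_τ _).2 ⟨u, z, rfl, hu, hz, hucl⟩) hc'
      have h2 : c = c' := (hg.func.2 _ hz).unique hc h1
      subst h2
      obtain ⟨y', c', e, -, -, h3⟩ := (hT.mem_τ _).1 hc'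
      obtain ⟨rfl, rfl⟩ := ZFSet.pair_inj.1 e
      exact ⟨u, y, hu, hy, hucl, h3, hy'⟩
  refine ⟨t, ht, fun z hz hzt => ?_⟩
  have htne : t ≠ ∅ := by
    rintro rfl
    exact ZFSet.notMem_empty _ hst
  obtain ⟨u, y, hu, hy, -, hyc, huy⟩ := hpre z hz t hzt htne
  have huM := hu.1
  obtain ⟨π, hπ⟩ := (hyc s hs).1 hst
  obtain ⟨k, hk⟩ := (mem_FS.1 π.2).bddAbove
  have hns : ∀ n ≥ k + 1, ∀ c, pair (nat n) c ∈ s → pair (nat n) c ∈ y := by
    intro n hn c hc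
    have h1 : π.1 n = n := by
      by_contra hc
      have h2 := hk (show n ∈ {k | π.1 k ≠ k} from hc)
      omega
    have h2 := hπ.iff.1 hc
    rwa [h1] at h2
  obtain ⟨pw, hpw, hpw'⟩ := hM.power _ hom
  have d2 : Dfn M M fun w : Fin 2 → ZFSet.{0} => ∃ m ∈ W, ∃ q ∈ m, ∃ r ∈ M, pair (w 0) m ∈ u ∧
      ZFSet.IsFunc ZFSet.omega W q ∧ (ZFSet.IsFunc ZFSet.omega T r ∧
        ∀ k ∈ ZFSet.omega, (k ∈ w 1 → pair k t1 ∈ r) ∧ (k ∉ w 1 → pair k ∅ ∈ r)) ∧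
      ∀ j ∈ ZFSet.omega, ∀ b ∈ W, ∀ d ∈ T, pair j b ∈ q → pair j d ∈ r → pair b d ∈ g := (by
          (repeat' first
            | assumption
            | exact DfnF.proj _
            | exact DfnF.const (by assumption)
            | apply hB.isFunc' | apply hB.isBij'
            | apply Dfn.iff | apply Dfn.not | apply Dfn.and | apply Dfn.or | apply Dfn.imp
            | apply hB.bex | apply hB.ball | apply hB.subset'
            | apply Dfn.ex | apply Dfn.all | apply Dfn.eq | apply Dfn.mem | apply hB.pair'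
            | apply hB.single'))
  obtain ⟨f, hf, -, hf2⟩ := hM.rel_mem hom hpw
    (Q := fun n a => ∃ m ∈ W, ∃ q ∈ m, ∃ r ∈ M, pair n m ∈ u ∧
      ZFSet.IsFunc ZFSet.omega W q ∧ Ch T t1 a r ∧
      ∀ j ∈ ZFSet.omega, ∀ b ∈ W, ∀ d ∈ T, pair j b ∈ q → pair j d ∈ r → pair b d ∈ g) d2
  refine h.nochoice f hf (k + 1) (fun n hn => ?_) fun n a a' ha ha' => ?_
  · obtain ⟨c, hc, hcne⟩ := hcl n
    have h1 := hns n hn c hc
    obtain ⟨m, hm, -⟩ := hu.2.2 (nat n) (nat_mem_omega n)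
    have hmW := (func_mem hu.2 hm).2
    have h2 := (huy _ _ _ hm).1 h1
    obtain ⟨q, r, hq, hr, hqm, hrc, hqr⟩ := hpre m hmW c h2 hcne
    have h3 : r ∈ c := (hrc r hr.1).2 ((rl_FsE hM).refl _ _ hr.2)
    obtain ⟨a, haM, haS, har⟩ := (((hs2 _ _).1 hc).2.2 r hr.1).1 h3
    obtain ⟨σ, rfl⟩ := (hSa n a).1 haS
    refine ⟨σ, (hf2 _ _).2 ⟨nat_mem_omega n, (hpw' _).2 ⟨haM, rl_sub⟩,
      m, hmW, q, (hqm q hq.1).2 rfl, r, hr.1, hm, hq.2, har, fun j _ b _ d _ hjb hjd =>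
        (hqr j b d hjb).1 hjd⟩⟩
  · obtain ⟨hn, hap, m, hm, q, hqm, r, hr, hnm, hq, har, hqr⟩ := (hf2 _ _).1 ha
    obtain ⟨-, hap', m', hm', q', hqm', r', hr', hnm', hq', har', hqr'⟩ := (hf2 _ _).1 ha'
    have e1 : m' = m := (hu.2.2 n hn).unique hnm' hnm
    subst e1
    have e2 : q' = q := by
      rcases hW.cases m' hm with e | ⟨q0, -, hq0⟩
      · rw [e] at hqm
        exact absurd hqm (ZFSet.notMem_empty _)
      · have hmM := hM.trans _ hWM _ hm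
        rw [← (hq0 q (hM.trans _ hmM _ hqm)).1 hqm, ← (hq0 q' (hM.trans _ hmM _ hqm')).1 hqm']
    subst e2
    have e3 : r = r' := by
      refine func_ext har.1 har'.1 fun j d hjd => ?_
      have hj := func_mem har.1 hjd
      obtain ⟨b, hjb, -⟩ := hq.2 j hj.1
      obtain ⟨d', hjd', -⟩ := har'.1.2 j hj.1
      have hbW := (func_mem hq hjb).2
      have hd' := (func_mem har'.1 hjd').2
      have e4 : d = d' := (hg.func.2 b hbW).unique (hqr j hj.1 b hbW d hj.2 hjb hjd)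
        (hqr' j hj.1 b hbW d' hd' hjb hjd')
      rwa [e4]
    subst e3
    have h1 := ((hpw' a).1 hap).2
    have h2 := ((hpw' a').1 hap').2
    ext z
    exact ⟨fun hz => Ch.sub hne har har' h1 hz, fun hz => Ch.sub hne har' har h2 hz⟩

end Pool.Agent.R602.WT
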