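import Pool.Agent.R602.WT.Defs
import Pool.Agent.W868.Tool

/-!
# The initial algebras
-/

set_option autoImplicit false
set_option linter.unreachableTactic false
set_option linter.unusedTactic false
set_option linter.unusedSectionVars false

namespace Pool.Agent.R602.WT

open Pool.Agent.W868
open ZFSet (pair)

theorem isFunc_mono {A A' v : ZFSet.{0}} (h : ZFSet.IsFunc ZFSet.omega A v) (hA : A ⊆ A') :
    ZFSet.IsFunc ZFSet.omega A' v :=
  ⟨fun z hz => by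
    obtain ⟨n, hn, a, ha, rfl⟩ := ZFSet.mem_prod.1 (h.1 hz)
    exact ZFSet.mem_prod.2 ⟨n, hn, a, hA ha, rfl⟩, h.2⟩

theorem func_mem {X A v n a : ZFSet.{0}} (h : ZFSet.IsFunc X A v) (hz : pair n a ∈ v) :
    n ∈ X ∧ a ∈ A := ZFSet.pair_mem_prod.1 (h.1 hz)

theorem func_ext {X A B u v : ZFSet.{0}} (hu : ZFSet.IsFunc X A u) (hv : ZFSet.IsFunc X B v)
    (h : ∀ n a, pair n a ∈ u → pair n a ∈ v) : u = v := by
  ext z
  constructor
  · intro hz
    obtain ⟨n, -, a, -, rfl⟩ := ZFSet.mem_prod.1 (hu.1 hz)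
    exact h n a hz
  · intro hz
    obtain ⟨n, hn, a, -, rfl⟩ := ZFSet.mem_prod.1 (hv.1 hz)
    obtain ⟨b, hb, -⟩ := hu.2 n hn
    have h1 := (hv.2 n hn).unique hz (h n b hb)
    rwa [h1]

/-- The properties of the relation between the sequences. -/
structure Rl (M : Set ZFSet.{0}) (E : ZFSet.{0} → ZFSet.{0} → Prop) : Prop where
  dfn : Dfn M M fun w : Fin 2 → ZFSet.{0} => E (w 0) (w 1)
  refl : ∀ v A : ZFSet.{0}, ZFSet.IsFunc ZFSet.omega A v → E v v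
  symm : ∀ v w A : ZFSet.{0}, ZFSet.IsFunc ZFSet.omega A v → E v w → E w v
  trans : ∀ u v w : ZFSet.{0}, E u v → E v w → E u w
  compat : ∀ v v' u u' h A B : ZFSet.{0}, ZFSet.IsFunc ZFSet.omega A v → ZFSet.IsFunc ZFSet.omega B u →
    ZFSet.IsFunc ZFSet.omega A v' → ZFSet.IsFunc ZFSet.omega B u' → E v v' →
    (∀ n x y y', pair n x ∈ v → pair x y ∈ h → pair x y' ∈ h → y = y') →
    (∀ n x y, pair n x ∈ v → pair n y ∈ u → pair x y ∈ h) →
    (∀ n x y, pair n x ∈ v' → pair n y ∈ u' → pair x y ∈ h) → E u u'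

/-- `(T, τ)` is the algebra of the trees for `E`. -/
structure TA (M : Set ZFSet.{0}) (E : ZFSet.{0} → ZFSet.{0} → Prop) (T τ : ZFSet.{0}) : Prop where
  T_mem : T ∈ M
  τ_mem : τ ∈ M
  emp : ∅ ∈ T
  cls : ∀ v, IsSeq M T v → ∃ s ∈ T, ∀ w ∈ M, (w ∈ s ↔ E v w)
  cases : ∀ s ∈ T, s = ∅ ∨ ∃ v, IsSeq M T v ∧ ∀ w ∈ M, (w ∈ s ↔ E v w)
  mem_τ : ∀ z, z ∈ τ ↔ ∃ v s, z = pair v s ∧ IsSeq M T v ∧ s ∈ T ∧ ∀ w ∈ M, (w ∈ s ↔ E v w)

section

variable {M : Set ZFSet.{0}} (hM : IsZF M)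

include hM

theorem exists_seqs {A : ZFSet.{0}} (hA : A ∈ M) : ∃ Q ∈ M, ∀ v, v ∈ Q ↔ IsSeq M A v := by
  have hB := hM.base
  have hom := hM.infinity
  obtain ⟨p, hp, h1⟩ := hM.power _ (hM.prod_mem hM.infinity hA)
  have h2 : Dfn M M fun w : Fin 1 → ZFSet.{0} => ZFSet.IsFunc ZFSet.omega A (w 0) := (by
      (repeat' first
        | assumption
        | exact DfnF.proj _
        | exact DfnF.const (by assumption)
        | apply hB.isFunc' | apply hB.isBij'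
        | apply Dfn.iff | apply Dfn.not | apply Dfn.and | apply Dfn.or | apply Dfn.imp
        | apply hB.bex | apply hB.ball | apply hB.subset'
        | apply Dfn.ex | apply Dfn.all | apply Dfn.eq | apply Dfn.mem | apply hB.pair'
        | apply hB.single'))
  refine ⟨_, hM.sep_mem (Q := fun v => ZFSet.IsFunc ZFSet.omega A v) h2 hp, fun v => ?_⟩
  rw [ZFSet.mem_sep, h1]
  exact ⟨fun h => ⟨h.1.1, h.2⟩, fun h => ⟨⟨h.1, h.2.1⟩, h.2⟩⟩

theorem exists_comp {T A v h : ZFSet.{0}} (hT : T ∈ M) (hA : A ∈ M) (hh : h ∈ M)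
    (hv : IsSeq M T v) (hs : h ⊆ ZFSet.prod T A)
    (hf : ∀ n x, pair n x ∈ v → ∃! y, pair x y ∈ h) :
    ∃ u, IsSeq M A u ∧ ∀ n x y, pair n x ∈ v → (pair n y ∈ u ↔ pair x y ∈ h) := by
  have hB := hM.base
  have hom := hM.infinity
  have hvM := hv.1
  have h1 : Dfn M M fun w : Fin 2 → ZFSet.{0} =>
      ∃ x ∈ T, pair (w 0) x ∈ v ∧ pair x (w 1) ∈ h := (by
          (repeat' first
            | assumption
            | exact DfnF.proj _
            | exact DfnF.const (by assumption)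
            | apply hB.isFunc' | apply hB.isBij'
            | apply Dfn.iff | apply Dfn.not | apply Dfn.and | apply Dfn.or | apply Dfn.imp
            | apply hB.bex | apply hB.ball | apply hB.subset'
            | apply Dfn.ex | apply Dfn.all | apply Dfn.eq | apply Dfn.mem | apply hB.pair'
            | apply hB.single'))
  obtain ⟨u, hu, hu1, hu2⟩ := hM.rel_mem hom hA
    (Q := fun n y => ∃ x ∈ T, pair n x ∈ v ∧ pair x y ∈ h) h1
  have key : ∀ n x y, pair n x ∈ v → (pair n y ∈ u ↔ pair x y ∈ h) := by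
    intro n x y hx
    have h2 := func_mem hv.2 hx
    rw [hu2]
    constructor
    · rintro ⟨-, -, x', hx', h3, h4⟩
      rwa [(hv.2.2 n h2.1).unique hx h3]
    · intro h3
      exact ⟨h2.1, (ZFSet.pair_mem_prod.1 (hs h3)).2, x, h2.2, hx, h3⟩
  refine ⟨u, ⟨hu, hu1, fun n hn => ?_⟩, key⟩
  obtain ⟨x, hx, -⟩ := hv.2.2 n hn
  obtain ⟨y, hy, hy'⟩ := hf n x hx
  exact ⟨y, (key n x y hx).2 hy, fun z hz => hy' z ((key n x z hx).1 hz)⟩

variable {E : ZFSet.{0} → ZFSet.{0} → Prop} (hE : Rl M E)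

include hE

theorem exists_TA {K : ZFSet.{0}} (hK : K ∈ M) (h0 : ∅ ∈ K)
    (hc : ∀ v, IsSeq M K v → ∃ s ∈ K, ∀ w ∈ M, (w ∈ s ↔ E v w)) : ∃ T τ, TA M E T τ := by
  have hB := hM.base
  have hom := hM.infinity
  have hemp := hM.empty_mem
  have h1 : Dfn M M fun w : Fin 1 → ZFSet.{0} => ∃ S ∈ M, w 0 ∈ S ∧ S ⊆ K ∧
      ∀ s ∈ S, s = ∅ ∨ ∃ v ∈ M, ZFSet.IsFunc ZFSet.omega S v ∧ ∀ w ∈ M, (w ∈ s ↔ E v w) := (by
          (repeat' first
            | assumption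
            | exact DfnF.proj _
            | exact DfnF.const (by assumption)
            | apply hB.isFunc' | apply hB.isBij'
            | apply Dfn.iff | apply Dfn.not | apply Dfn.and | apply Dfn.or | apply Dfn.imp
            | apply hB.bex | apply hB.ball | apply hB.subset'
            | apply Dfn.ex | apply Dfn.all | apply Dfn.eq | apply Dfn.mem | apply hB.pair'
            | apply hB.single'
            | exact Dfn.comp2 (Q := E) hE.dfn (DfnF.proj _) (DfnF.proj _)))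
  obtain ⟨T, hT0, h2, hT'⟩ : ∃ T, T ∈ M ∧ T ⊆ K ∧ ∀ t, t ∈ T ↔ ∃ S ∈ M, t ∈ S ∧ S ⊆ K ∧
      ∀ s ∈ S, s = ∅ ∨ ∃ v ∈ M, ZFSet.IsFunc ZFSet.omega S v ∧ ∀ w ∈ M, (w ∈ s ↔ E v w) := by
    refine ⟨_, hM.sep_mem (Q := fun t => ∃ S ∈ M, t ∈ S ∧ S ⊆ K ∧
      ∀ s ∈ S, s = ∅ ∨ ∃ v ∈ M, ZFSet.IsFunc ZFSet.omega S v ∧ ∀ w ∈ M, (w ∈ s ↔ E v w)) h1 hK,
      fun t ht => (ZFSet.mem_sep.1 ht).1, fun t => ?_⟩
    rw [ZFSet.mem_sep]
    constructor
    · exact fun h => h.2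
    · intro h
      obtain ⟨S, -, h3, h4, -⟩ := id h
      exact ⟨h4 h3, h⟩
  have cases : ∀ s ∈ T, s = ∅ ∨ ∃ v, IsSeq M T v ∧ ∀ w ∈ M, (w ∈ s ↔ E v w) := by
    intro s hs
    obtain ⟨S, hS, hs, hSK, hj⟩ := (hT' s).1 hs
    have hST : S ⊆ T := fun t ht => (hT' t).2 ⟨S, hS, ht, hSK, hj⟩
    rcases hj s hs with h | ⟨v, hv, hf, h⟩
    · exact Or.inl h
    · exact Or.inr ⟨v, ⟨hv, isFunc_mono hf hST⟩, h⟩
  have emp : ∅ ∈ T := (hT' _).2 ⟨{∅}, hM.single_mem hemp, ZFSet.mem_singleton.2 rfl,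
    fun s hs => by rwa [ZFSet.mem_singleton.1 hs], fun s hs => Or.inl (ZFSet.mem_singleton.1 hs)⟩
  have cls : ∀ v, IsSeq M T v → ∃ s ∈ T, ∀ w ∈ M, (w ∈ s ↔ E v w) := by
    intro v hv
    obtain ⟨s, hs, h⟩ := hc v ⟨hv.1, isFunc_mono hv.2 h2⟩
    refine ⟨s, (hT' s).2 ⟨insert s T, hM.insert_mem (hM.trans _ hK _ hs) hT0,
      ZFSet.mem_insert _ _, ?_, ?_⟩, h⟩
    · intro t ht
      rcases ZFSet.mem_insert_iff.1 ht with rfl | ht
      · exact hs
      · exact h2 ht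
    · intro t ht
      rcases ZFSet.mem_insert_iff.1 ht with rfl | ht
      · exact Or.inr ⟨v, hv.1, isFunc_mono hv.2 fun z hz => ZFSet.mem_insert_of_mem _ hz, h⟩
      · rcases cases t ht with h | ⟨v, hv, h⟩
        · exact Or.inl h
        · exact Or.inr ⟨v, hv.1, isFunc_mono hv.2 fun z hz => ZFSet.mem_insert_of_mem _ hz, h⟩
  obtain ⟨Q, hQ, hQ'⟩ := exists_seqs hM hT0
  have h3 : Dfn M M fun w : Fin 2 → ZFSet.{0} => ∀ u ∈ M, (u ∈ w 1 ↔ E (w 0) u) := (by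
      (repeat' first
        | assumption
        | exact DfnF.proj _
        | exact DfnF.const (by assumption)
        | apply hB.isFunc' | apply hB.isBij'
        | apply Dfn.iff | apply Dfn.not | apply Dfn.and | apply Dfn.or | apply Dfn.imp
        | apply hB.bex | apply hB.ball | apply hB.subset'
        | apply Dfn.ex | apply Dfn.all | apply Dfn.eq | apply Dfn.mem | apply hB.pair'
        | apply hB.single'
        | exact Dfn.comp2 (Q := E) hE.dfn (DfnF.proj _) (DfnF.proj _)))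
  obtain ⟨τ, hτ, h4, h5⟩ := hM.rel_mem hQ hT0 (Q := fun v s => ∀ u ∈ M, (u ∈ s ↔ E v u)) h3
  refine ⟨T, τ, hT0, hτ, emp, cls, cases, fun z => ⟨fun hz => ?_, ?_⟩⟩
  · obtain ⟨v, hv, s, hs, rfl⟩ := ZFSet.mem_prod.1 (h4 hz)
    exact ⟨v, s, rfl, (hQ' v).1 hv, hs, ((h5 v s).1 hz).2.2⟩
  · rintro ⟨v, s, rfl, hv, hs, h⟩
    exact (h5 v s).2 ⟨(hQ' v).2 hv, hs, h⟩

omit hM in
theorem TA.induct {T τ : ZFSet.{0}} (h : TA M E T τ) {P : ZFSet.{0} → Prop} (h0 : P ∅)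
    (h1 : ∀ v s, IsSeq M T v → s ∈ T → (∀ w ∈ M, (w ∈ s ↔ E v w)) →
      (∀ n x, pair n x ∈ v → P x) → P s) : ∀ s ∈ T, P s := by
  intro s
  induction s using (InvImage.wf ZFSet.rank Ordinal.lt_wf).induction with
  | _ s ih =>
    intro hs
    rcases h.cases s hs with rfl | ⟨v, hv, hcl⟩
    · exact h0
    · refine h1 v s hv hs hcl fun n x hx => ih x ?_ (func_mem hv.2 hx).2
      change ZFSet.rank x < ZFSet.rank s
      have e1 : x ∈ ({n, x} : ZFSet.{0}) := ZFSet.mem_pair.2 (Or.inr rfl)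
      have e2 : ({n, x} : ZFSet.{0}) ∈ pair n x := ZFSet.mem_pair.2 (Or.inr rfl)
      have e3 : v ∈ s := (hcl v hv.1).2 (hE.refl v T hv.2)
      exact (ZFSet.rank_lt_of_mem e1).trans ((ZFSet.rank_lt_of_mem e2).trans
        ((ZFSet.rank_lt_of_mem hx).trans (ZFSet.rank_lt_of_mem e3)))

theorem TA.unique {T τ : ZFSet.{0}} (h : TA M E T τ) {v s t : ZFSet.{0}} (hs : s ∈ T)
    (ht : t ∈ T) (h1 : ∀ u ∈ M, (u ∈ s ↔ E v u)) (h2 : ∀ u ∈ M, (u ∈ t ↔ E v u)) :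
    s = t := by
  ext z
  constructor
  · intro hz
    have hzM := hM.trans _ (hM.trans _ h.T_mem _ hs) _ hz
    exact (h2 z hzM).2 ((h1 z hzM).1 hz)
  · intro hz
    have hzM := hM.trans _ (hM.trans _ h.T_mem _ ht) _ hz
    exact (h1 z hzM).2 ((h2 z hzM).1 hz)

theorem TA.isAlg {T τ : ZFSet.{0}} (h : TA M E T τ) : IsAlg M T ∅ τ := by
  refine ⟨h.T_mem, h.emp, h.τ_mem, fun z hz => ?_, fun v hv => ?_⟩
  · obtain ⟨v, s, rfl, hv, hs, -⟩ := (h.mem_τ z).1 hz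
    exact ⟨v, s, rfl, hv, hs⟩
  · obtain ⟨s, hs, hcl⟩ := h.cls v hv
    refine ⟨s, (h.mem_τ _).2 ⟨v, s, rfl, hv, hs, hcl⟩, fun t ht => ?_⟩
    obtain ⟨v', t', e, -, ht', hcl'⟩ := (h.mem_τ _).1 ht
    obtain ⟨rfl, rfl⟩ := ZFSet.pair_inj.1 e
    exact TA.unique hM hE h ht' hs hcl' hcl

theorem TA.equ {T τ : ZFSet.{0}} (h : TA M E T τ) {v w b : ZFSet.{0}} (hw : IsSeq M T w)
    (hE' : E v w) (hb : pair v b ∈ τ) : pair w b ∈ τ := by
  obtain ⟨v', t', e, hv', ht', hcl'⟩ := (h.mem_τ _).1 hb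
  obtain ⟨rfl, rfl⟩ := ZFSet.pair_inj.1 e
  refine (h.mem_τ _).2 ⟨w, b, rfl, hw, ht', fun u hu => ?_⟩
  rw [hcl' u hu]
  exact ⟨fun h1 => hE.trans w v u (hE.symm v w T hv'.2 hE') h1, fun h1 => hE.trans v w u hE' h1⟩

theorem TA.exists_hom {T τ : ZFSet.{0}} (h : TA M E T τ) {A a α : ZFSet.{0}}
    (hA : IsAlg M A a α) (hK : ∀ v w b, IsSeq M A v → IsSeq M A w → E v w → pair v b ∈ α →
      pair w b ∈ α) : ∃! g, IsHom M T ∅ τ A a α g := by
  have hB := hM.base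
  have hom := hM.infinity
  have hemp := hM.empty_mem
  have hTM := h.T_mem
  have hAM := hA.A_mem
  have haM := hM.trans _ hAM _ hA.a_mem
  have hαM := hA.α_mem
  have hαA : ∀ v c, pair v c ∈ α → c ∈ A := by
    intro v c hc
    obtain ⟨v', c', e, -, hc'⟩ := hA.pairs _ hc
    rwa [(ZFSet.pair_inj.1 e).2]
  have d1 : Dfn M M fun w : Fin 2 → ZFSet.{0} => ∃ f ∈ M, pair (w 0) (w 1) ∈ f ∧
      ∀ z ∈ f, z = pair ∅ a ∨ ∃ v ∈ M, ∃ u ∈ M, ∃ s ∈ T, ∃ c ∈ A, z = pair s c ∧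
        ZFSet.IsFunc ZFSet.omega T v ∧ ZFSet.IsFunc ZFSet.omega A u ∧
        (∀ w ∈ M, (w ∈ s ↔ E v w)) ∧ pair u c ∈ α ∧
        ∀ n ∈ ZFSet.omega, ∀ x ∈ T, ∀ y ∈ A, pair n x ∈ v → pair n y ∈ u → pair x y ∈ f := (by
            (repeat' first
              | assumption
              | exact DfnF.proj _
              | exact DfnF.const (by assumption)
              | apply hB.isFunc' | apply hB.isBij'
              | apply Dfn.iff | apply Dfn.not | apply Dfn.and | apply Dfn.or | apply Dfn.imp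
              | apply hB.bex | apply hB.ball | apply hB.subset'
              | apply Dfn.ex | apply Dfn.all | apply Dfn.eq | apply Dfn.mem | apply hB.pair'
              | apply hB.single'
              | exact Dfn.comp2 (Q := E) hE.dfn (DfnF.proj _) (DfnF.proj _)))
  let Jd : ZFSet.{0} → Prop := fun f =>
      ∀ z ∈ f, z = pair ∅ a ∨ ∃ v ∈ M, ∃ u ∈ M, ∃ s ∈ T, ∃ c ∈ A, z = pair s c ∧
        ZFSet.IsFunc ZFSet.omega T v ∧ ZFSet.IsFunc ZFSet.omega A u ∧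
        (∀ w ∈ M, (w ∈ s ↔ E v w)) ∧ pair u c ∈ α ∧
        ∀ n ∈ ZFSet.omega, ∀ x ∈ T, ∀ y ∈ A, pair n x ∈ v → pair n y ∈ u → pair x y ∈ f
  obtain ⟨g, hg, hgs, hg'⟩ := hM.rel_mem hTM hAM (Q := fun t b => ∃ f ∈ M, pair t b ∈ f ∧ Jd f) d1
  have jg : Jd g := by
    intro z hz
    obtain ⟨t, ht, b, hb, rfl⟩ := ZFSet.mem_prod.1 (hgs hz)
    obtain ⟨-, -, f, hf, hf1, hf2⟩ := (hg' t b).1 hz
    rcases hf2 _ hf1 with h | ⟨v, hv, u, hu, s, hs, c, hc, e, h1, h2, h3, h4, h5⟩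
    · exact Or.inl h
    · exact Or.inr ⟨v, hv, u, hu, s, hs, c, hc, e, h1, h2, h3, h4, fun n hn x hx y hy hnx hny =>
        (hg' x y).2 ⟨hx, hy, f, hf, h5 n hn x hx y hy hnx hny, hf2⟩⟩
  have g0 : pair ∅ a ∈ g := (hg' _ _).2 ⟨h.emp, hA.a_mem, {pair ∅ a},
    hM.single_mem (hM.pair_mem hemp haM), ZFSet.mem_singleton.2 rfl,
    fun z hz => Or.inl (ZFSet.mem_singleton.1 hz)⟩
  have gnode : ∀ v u s c, IsSeq M T v → IsSeq M A u → s ∈ T → c ∈ A →
      (∀ w ∈ M, (w ∈ s ↔ E v w)) → pair u c ∈ α →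
      (∀ n x y, pair n x ∈ v → pair n y ∈ u → pair x y ∈ g) → pair s c ∈ g := by
    intro v u s c hv hu hs hc h1 h2 h3
    refine (hg' s c).2 ⟨hs, hc, insert (pair s c) g, hM.insert_mem (hM.pair_mem
      (hM.trans _ hTM _ hs) (hM.trans _ hAM _ hc)) hg, ZFSet.mem_insert _ _, ?_⟩
    intro z hz
    rcases ZFSet.mem_insert_iff.1 hz with rfl | hz
    · exact Or.inr ⟨v, hv.1, u, hu.1, s, hs, c, hc, rfl, hv.2, hu.2, h1, h2,
        fun n _ x _ y _ hx hy => ZFSet.mem_insert_of_mem _ (h3 n x y hx hy)⟩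
    · rcases jg z hz with h | ⟨v, hv, u, hu, s, hs, c, hc, e, h1, h2, h3, h4, h5⟩
      · exact Or.inl h
      · exact Or.inr ⟨v, hv, u, hu, s, hs, c, hc, e, h1, h2, h3, h4,
          fun n hn x hx y hy hnx hny => ZFSet.mem_insert_of_mem _ (h5 n hn x hx y hy hnx hny)⟩
  have key : ∀ s ∈ T, ∃! b, pair s b ∈ g := by
    refine TA.induct hE h ?_ ?_
    · refine ⟨a, g0, fun b hb => ?_⟩
      rcases jg _ hb with h1 | ⟨v, hv, u, hu, s, hs, c, hc, e, h1, h2, h3, h4, h5⟩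
      · exact (ZFSet.pair_inj.1 h1).2
      · have e1 := (ZFSet.pair_inj.1 e).1
        have e2 := (h3 v hv).2 (hE.refl v T h1)
        rw [← e1] at e2
        exact absurd e2 (ZFSet.notMem_empty v)
    · intro v s hv hs hcl ih
      obtain ⟨u, hu, hu'⟩ := exists_comp hM hTM hAM hg hv hgs ih
      obtain ⟨c, hc, hc'⟩ := hA.total u hu
      refine ⟨c, gnode v u s c hv hu hs (hαA _ _ hc) hcl hc fun n x y hx hy =>
        (hu' n x y hx).1 hy, fun b hb => ?_⟩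
      rcases jg _ hb with h1 | ⟨v', hv', u2, hu2, s', hs', c', hc', e, h1, h2, h3, h4, h5⟩
      · exfalso
        have e2 := (hcl v hv.1).2 (hE.refl v T hv.2)
        rw [(ZFSet.pair_inj.1 h1).1] at e2
        exact ZFSet.notMem_empty v e2
      · obtain ⟨rfl, rfl⟩ := ZFSet.pair_inj.1 e
        have hE1 : E v v' := (hcl v' hv').1 ((h3 v' hv').2 (hE.refl v' T h1))
        have hE2 : E u u2 := hE.compat v v' u u2 g T A hv.2 hu.2 h1 h2 hE1
          (fun n x y y' hx hy hy' => (ih n x hx).unique hy hy')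
          (fun n x y hx hy => (hu' n x y hx).1 hy)
          (fun n x y hx hy => h5 n (func_mem h1 hx).1 x (func_mem h1 hx).2 y (func_mem h2 hy).2
            hx hy)
        exact (hA.total u2 ⟨hu2, h2⟩).unique h4 (hK u u2 c hu ⟨hu2, h2⟩ hE2 hc)
  refine ⟨g, ⟨hg, ⟨hgs, key⟩, g0, fun v w x y hv hw hvw hx hy => ?_⟩, fun g2 hg2 => ?_⟩
  · obtain ⟨v', s, e, hv', hs, hcl⟩ := (h.mem_τ _).1 hx
    obtain ⟨rfl, rfl⟩ := ZFSet.pair_inj.1 e
    exact gnode v w x y hv hw hs (hαA _ _ hy) hcl hy hvw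
  · have key2 : ∀ s ∈ T, ∀ b, pair s b ∈ g2 → pair s b ∈ g := by
      refine TA.induct hE h ?_ ?_
      · intro b hb
        rw [(hg2.func.2 ∅ h.emp).unique hb hg2.point]
        exact g0
      · intro v s hv hs hcl ih b hb
        obtain ⟨u, hu, hu'⟩ := exists_comp hM hTM hAM hg hv hgs
          (fun n x hx => key x (func_mem hv.2 hx).2)
        obtain ⟨c, hc, -⟩ := hA.total u hu
        have k1 : pair s c ∈ g2 := by
          refine hg2.node v u s c hv hu (fun n p q hp hq => ?_)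
            ((h.mem_τ _).2 ⟨v, s, rfl, hv, hs, hcl⟩) hc
          have hpT := (func_mem hv.2 hp).2
          obtain ⟨q', hq', -⟩ := hg2.func.2 p hpT
          have h6 := (hu' n p q hp).1 hq
          have h7 := ih n p hp q' hq'
          rwa [(key p hpT).unique h6 h7]
        rw [(hg2.func.2 s hs).unique hb k1]
        exact gnode v u s c hv hu hs (hαA _ _ hc) hcl hc fun n x y hx hy => (hu' n x y hx).1 hy
    ext z
    constructor
    · intro hz
      obtain ⟨s, hs, b, hb, rfl⟩ := ZFSet.mem_prod.1 (hg2.func.1 hz)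
      exact key2 s hs b hz
    · intro hz
      obtain ⟨s, hs, b, hb, rfl⟩ := ZFSet.mem_prod.1 (hgs hz)
      obtain ⟨b', hb', -⟩ := hg2.func.2 s hs
      rwa [(key s hs).unique hz (key2 s hs b' hb')]

end

end Pool.Agent.R602.WT
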