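import Pool.Agent.R602.WT.Sp

/-!
# The model
-/

set_option autoImplicit false

namespace Pool.Agent.R602.WT

open Pool.Agent.W868 Pool.Agent.W868.PName Pool.Agent.R598.SY
open ZFSet (pair)

/-! ### The names for the reals -/

/-- The name for the real `n`, permuted by `π`. -/
noncomputable def rN (n : ℕ) (π : FS) : PName P :=
  fN ℕ (fun k => check (nat k)) fun k => Co n (π.1 k) true

theorem act_rN (g : G) (n : ℕ) (π : FS) (p : P) :
    Feq (act (sys.ac g) (rN n π)) (rN n (g n * π)) p := by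
  refine feq_trans (feq_of_el fun y c => el_act_fN) (feq_fN (fun k => ?_) fun k x _ => Iff.rfl)
  rw [act_check (sys.top g)]
  exact Feq.refl _ _

theorem hs_rN (n : ℕ) (π : FS) : sys.HS (rN n π) := by
  refine sys.hs_iff.2 ⟨⟨_, ⟨{n}, rfl⟩, fun g hg p => ?_⟩, fun y c hy => ?_⟩
  · have h1 : (g : G) n = 1 := hg n (Finset.mem_singleton_self _)
    have h2 := act_rN g n π p
    rwa [h1, one_mul] at h2
  · obtain ⟨k, -, rfl⟩ := el_fN.1 hy
    exact sys.hs_check _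

/-- The name for the sequence of the classes. -/
noncomputable def SN : PName P :=
  fN (ℕ × FS) (fun t => opN (check (nat t.1)) (rN t.1 t.2)) fun _ => Set.univ

theorem act_SN (g : G) (p : P) : Feq (act (sys.ac g) SN) SN p := by
  have key : ∀ (t : ℕ × FS) (q : P), Feq (act (sys.ac g) (opN (check (nat t.1)) (rN t.1 t.2)))
      (opN (check (nat t.1)) (rN t.1 (g t.1 * t.2))) q := by
    intro t q
    rw [act_opN (sys.top g), act_check (sys.top g)]
    exact feq_opN (Feq.refl _ _) (act_rN g _ _ q)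
  rw [feq_iff']
  constructor
  · intro a c ha q _ hqc
    obtain ⟨t, h1, rfl⟩ := el_fN.1 (el_act_fN.1 ha)
    exact ⟨q, le_rfl, _, q, el_fN.2 ⟨(t.1, g t.1 * t.2), Set.subset_univ _, rfl⟩, le_rfl, key t q⟩
  · intro a c ha q _ hqc
    obtain ⟨t, h1, rfl⟩ := el_fN.1 ha
    refine ⟨q, le_rfl, _, q, el_act_fN.2 (el_fN.2 ⟨(t.1, (g t.1)⁻¹ * t.2), Set.subset_univ _,
      rfl⟩), le_rfl, ?_⟩
    have h2 := key (t.1, (g t.1)⁻¹ * t.2) q
    rwa [mul_inv_cancel_left] at h2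

theorem hs_SN : sys.HS SN := by
  refine sys.hs_iff.2 ⟨⟨_, ⟨∅, rfl⟩, fun g _ p => act_SN g p⟩, fun y c hy => ?_⟩
  obtain ⟨t, -, rfl⟩ := el_fN.1 hy
  exact sys.hs_opN (sys.hs_check _) (hs_rN _ _)

/-! ### A set of names that is closed under sequences -/

/-- The index type. -/
abbrev Kx : Type := FS × ℕ × Bc × G

/-- Codes of names. -/
inductive CN : Type
  | nil : CN
  | chk (n : ℕ) : CN
  | op (a b : CN) : CN
  | mk (D : Set Kx) (f : Kx → CN) (c : Kx → P) : CN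

/-- The name with the given code. -/
noncomputable def toN : CN → PName P
  | .nil => emp
  | .chk n => check (nat n)
  | .op a b => opN (toN a) (toN b)
  | .mk D f c => PName.mk {k // k ∈ D} (fun k => toN (f k.1)) (fun k => c k.1)

/-- The action on the codes. -/
def cact (g : G) : CN → CN
  | .nil => .nil
  | .chk n => .chk n
  | .op a b => .op (cact g a) (cact g b)
  | .mk D f c => .mk D (fun k => cact g (f k)) (fun k => mv g (c k))

theorem toN_cact (g : G) (a : CN) : toN (cact g a) = act (sys.ac g) (toN a) := by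
  induction a with
  | nil => exact (act_emp _).symm
  | chk n => exact (act_check (sys.top g) _).symm
  | op a b iha ihb =>
    change opN (toN (cact g a)) (toN (cact g b)) = act (sys.ac g) (opN (toN a) (toN b))
    rw [act_opN (sys.top g), iha, ihb]
  | mk D f c ih =>
    change PName.mk {k // k ∈ D} (fun k => toN (cact g (f k.1))) (fun k => mv g (c k.1)) =
      act (sys.ac g) (PName.mk {k // k ∈ D} (fun k => toN (f k.1)) (fun k => c k.1))
    rw [act]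
    congr 1
    funext k
    exact ih k.1

/-- The name for the set of the values of the codes. -/
noncomputable def BN : PName P :=
  PName.mk {c : CN // sys.HS (toN c)} (fun c => toN c.1) fun _ => ⊤

theorem el_BN {y : PName P} {c : P} : El BN y c ↔ ∃ a : CN, sys.HS (toN a) ∧ y = toN a ∧ c = ⊤ := by
  rw [BN, el_mk]
  constructor
  · rintro ⟨⟨a, ha⟩, rfl, rfl⟩
    exact ⟨a, ha, rfl, rfl⟩
  · rintro ⟨a, ha, rfl, rfl⟩
    exact ⟨⟨a, ha⟩, rfl, rfl⟩

theorem act_BN (g : G) (p : P) : Feq (act (sys.ac g) BN) BN p := by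
  refine feq_of_el fun y c => ?_
  rw [el_act]
  constructor
  · rintro ⟨y, c, hy, rfl, rfl⟩
    obtain ⟨a, ha, rfl, rfl⟩ := el_BN.1 hy
    refine el_BN.2 ⟨cact g a, ?_, (toN_cact g a).symm, sys.top g⟩
    rw [toN_cact]
    exact sys.hs_act ha g
  · intro hy
    obtain ⟨a, ha, rfl, rfl⟩ := el_BN.1 hy
    refine ⟨toN (cact g⁻¹ a), ⊤, el_BN.2 ⟨cact g⁻¹ a, ?_, rfl, rfl⟩, ?_, (sys.top g).symm⟩
    · rw [toN_cact]
      exact sys.hs_act ha _
    · rw [← toN_cact]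
      have h1 : ∀ b : CN, cact g (cact g⁻¹ b) = b := by
        intro b
        induction b with
        | nil => rfl
        | chk n => rfl
        | op a b iha ihb =>
          change CN.op (cact g (cact g⁻¹ a)) (cact g (cact g⁻¹ b)) = _
          rw [iha, ihb]
        | mk D f c ih =>
          change CN.mk D (fun k => cact g (cact g⁻¹ (f k))) (fun k => mv g (mv g⁻¹ (c k))) = _
          congr 1
          · funext k
            exact ih k
          · funext k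
            exact mv_inv_mv g (c k)
      rw [h1]

theorem hs_BN : sys.HS BN := by
  refine sys.hs_iff.2 ⟨⟨_, ⟨∅, rfl⟩, fun g _ p => act_BN g p⟩, fun y c hy => ?_⟩
  obtain ⟨a, ha, rfl, -⟩ := el_BN.1 hy
  exact ha

/-- A support. -/
noncomputable def spt (v : PName P) : Finset ℕ :=
  open Classical in if h : ∃ E, sys.Fix (fixE E) v then h.choose else ∅

theorem spt_spec {v : PName P} (hv : sys.HS v) : sys.Fix (fixE (spt v)) v := by
  have h : ∃ E, sys.Fix (fixE E) v := by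
    obtain ⟨_, ⟨E, rfl⟩, hE⟩ := hv.sym
    exact ⟨E, hE⟩
  unfold spt
  rw [dif_pos h]
  exact h.choose_spec

/-- There is a code of the value of `v` at `n`, below `u`. -/
def okv (v : PName P) (n : ℕ) (u : Bc) : Prop :=
  ∃ c : CN, sys.HS (toN c) ∧ cyl u ⊆ BV (opN (check (nat n)) (toN c)) v

/-- The code of the value of `v` at `n`, below `u`. -/
noncomputable def ch (v : PName P) (n : ℕ) (u : Bc) : CN :=
  open Classical in if h : okv v n u then h.choose else .nil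

theorem ch_spec {v : PName P} {n : ℕ} {u : Bc} (h : okv v n u) :
    sys.HS (toN (ch v n u)) ∧ cyl u ⊆ BV (opN (check (nat n)) (toN (ch v n u))) v := by
  unfold ch
  rw [dif_pos h]
  exact h.choose_spec

/-- The condition given by `u`. -/
noncomputable def pcU (u : Bc) : P :=
  open Classical in if h : (cyl u).Nonempty then ⟨cyl u, op_cyl u, h⟩ else ⊤

theorem pcU_val {u : Bc} (h : (cyl u).Nonempty) : (pcU u).1 = cyl u := by
  have e : pcU u = ⟨cyl u, op_cyl u, h⟩ := dif_pos h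
  rw [e]

/-- The code of the function `v`, permuted by `π`. -/
noncomputable def vP (v : PName P) (π : FS) : CN :=
  .mk {k | k.2.2.2 ∈ fixE (spt v) ∧ okv v (π.1 k.2.1) k.2.2.1 ∧ (cyl k.2.2.1).Nonempty}
    (fun k => .op (.chk k.2.1) (cact k.2.2.2 (ch v (π.1 k.2.1) k.2.2.1)))
    (fun k => mv k.2.2.2 (pcU k.2.2.1))

theorem el_vP {v : PName P} {π : FS} {y : PName P} {c : P} : El (toN (vP v π)) y c ↔
    ∃ (n : ℕ) (u : Bc) (g : G), g ∈ fixE (spt v) ∧ okv v (π.1 n) u ∧ (cyl u).Nonempty ∧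
      y = opN (check (nat n)) (act (sys.ac g) (toN (ch v (π.1 n) u))) ∧ c = mv g (pcU u) := by
  constructor
  · rintro ⟨⟨⟨σ, n, u, g⟩, h1, h2, h3⟩, rfl, rfl⟩
    refine ⟨n, u, g, h1, h2, h3, ?_, rfl⟩
    change opN (check (nat n)) (toN (cact g (ch v (π.1 n) u))) = _
    rw [toN_cact]
  · rintro ⟨n, u, g, h1, h2, h3, rfl, rfl⟩
    refine ⟨⟨⟨1, n, u, g⟩, h1, h2, h3⟩, ?_, rfl⟩
    change opN (check (nat n)) (toN (cact g (ch v (π.1 n) u))) = _
    rw [toN_cact]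

theorem mv_mul (g h : G) (U : P) : mv g (mv h U) = mv (g * h) U := rfl

theorem ac_mul (g h : G) : sys.ac (g * h : G) = sys.ac g * sys.ac h := acH.map_mul g h

theorem fix_vP' (v : PName P) (π : FS) (h : G) (hh : h ∈ fixE (spt v)) (p : P) :
    Feq (act (sys.ac h) (toN (vP v π))) (toN (vP v π)) p := by
  refine feq_of_el fun y c => ?_
  rw [el_act]
  constructor
  · rintro ⟨y, c, hy, rfl, rfl⟩
    obtain ⟨n, u, g, h1, h2, h3, rfl, rfl⟩ := el_vP.1 hy
    refine el_vP.2 ⟨n, u, h * g, (fixE (spt v)).mul_mem hh h1, h2, h3, ?_, rfl⟩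
    rw [act_opN (sys.top h), act_check (sys.top h), ac_mul, act_mul]
  · intro hy
    obtain ⟨n, u, g, h1, h2, h3, rfl, rfl⟩ := el_vP.1 hy
    have e : h * (h⁻¹ * g) = g := mul_inv_cancel_left _ _
    refine ⟨_, _, el_vP.2 ⟨n, u, h⁻¹ * g, (fixE (spt v)).mul_mem
      ((fixE (spt v)).inv_mem hh) h1, h2, h3, rfl, rfl⟩, ?_, ?_⟩
    · rw [act_opN (sys.top h), act_check (sys.top h), ← act_mul, ← ac_mul, e]
    · change _ = mv h (mv (h⁻¹ * g) (pcU u))
      rw [mv_mul, e]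

theorem fix_vP (v : PName P) (π : FS) : sys.Fix (fixE (spt v)) (toN (vP v π)) :=
  fun h hh p => fix_vP' v π h hh p

theorem hs_vP (v : PName P) (π : FS) : sys.HS (toN (vP v π)) := by
  refine sys.hs_iff.2 ⟨⟨_, ⟨_, rfl⟩, fix_vP v π⟩, fun y c hy => ?_⟩
  obtain ⟨n, u, g, -, h2, -, rfl, -⟩ := el_vP.1 hy
  exact sys.hs_opN (sys.hs_check _) (sys.hs_act (ch_spec h2).1 g)

/-- The code of the class of `v`. -/
noncomputable def cls (v : PName P) : CN := .mk {k | k.2 = (0, ∅, 1)} (fun k => vP v k.1) fun _ => ⊤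

/-- The code of the singleton of `v`. -/
noncomputable def sgl (v : PName P) : CN := .mk {k | k = (1, 0, ∅, 1)} (fun _ => vP v 1) fun _ => ⊤

theorem el_cls {v y : PName P} {c : P} : El (toN (cls v)) y c ↔ ∃ π : FS, y = toN (vP v π) ∧ c = ⊤ := by
  constructor
  · rintro ⟨⟨⟨σ, k⟩, h1⟩, rfl, rfl⟩
    exact ⟨σ, rfl, rfl⟩
  · rintro ⟨π, rfl, rfl⟩
    exact ⟨⟨⟨π, (0, ∅, 1)⟩, rfl⟩, rfl, rfl⟩

theorem el_sgl {v y : PName P} {c : P} : El (toN (sgl v)) y c ↔ y = toN (vP v 1) ∧ c = ⊤ := by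
  constructor
  · rintro ⟨_, rfl, rfl⟩
    exact ⟨rfl, rfl⟩
  · rintro ⟨rfl, rfl⟩
    exact ⟨⟨_, rfl⟩, rfl, rfl⟩

theorem hs_of_top {y : PName P} {E : Finset ℕ} (h : ∀ z c, El y z c → sys.HS z ∧ c = ⊤ ∧
    sys.Fix (fixE E) z) : sys.HS y := by
  refine sys.hs_iff.2 ⟨⟨_, ⟨E, rfl⟩, fun g hg p => ?_⟩, fun z c hz => (h z c hz).1⟩
  rw [feq_iff']
  constructor
  · intro a c ha q _ hqc
    obtain ⟨z, d, hz, rfl, rfl⟩ := el_act.1 ha
    obtain ⟨-, rfl, h1⟩ := h z d hz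
    exact ⟨q, le_rfl, z, ⊤, hz, le_top, h1 g hg q⟩
  · intro a c ha q _ hqc
    obtain ⟨-, rfl, h1⟩ := h a c ha
    refine ⟨q, le_rfl, act (sys.ac g) a, sys.ac g ⊤, el_act.2 ⟨a, ⊤, ha, rfl, rfl⟩, ?_, h1 g hg q⟩
    rw [sys.top g]
    exact le_top

theorem hs_cls (v : PName P) : sys.HS (toN (cls v)) := hs_of_top (E := spt v) fun z c hz => by
  obtain ⟨π, rfl, rfl⟩ := el_cls.1 hz
  exact ⟨hs_vP v π, rfl, fix_vP v π⟩

theorem hs_sgl (v : PName P) : sys.HS (toN (sgl v)) := hs_of_top (E := spt v) fun z c hz => by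
  obtain ⟨rfl, rfl⟩ := el_sgl.1 hz
  exact ⟨hs_vP v 1, rfl, fix_vP v 1⟩

/-! ### The package -/

/-- The properties of the package. -/
structure Good (π : Pkg P) (x : X) : Prop where
  cld : sys.Cld π
  gpt : Gpt π x
  sn : SN ∈ π.N
  bn : BN ∈ π.N
  rn : ∀ n σ, rN n σ ∈ π.N
  fch : ∀ v ∈ π.N, ∀ n u, toN (ch v n u) ∈ π.N
  fvp : ∀ v ∈ π.N, ∀ σ, toN (vP v σ) ∈ π.N
  fcls : ∀ v ∈ π.N, toN (cls v) ∈ π.N
  fsgl : ∀ v ∈ π.N, toN (sgl v) ∈ π.N
  g1 : ∀ n k b, ∃ j ≥ k, x n j = b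

theorem exists_good : ∃ π x, Good π x := by
  classical
  obtain ⟨π, hA, -, hcl⟩ := exists_pkg (sys.rules ∪ ({rB, rl fun v => toN (cls v),
      rl fun v => toN (sgl v)} ∪ ((Set.range fun t : ℕ × Bc => rl fun v => toN (ch v t.1 t.2)) ∪
      (Set.range fun σ : FS => rl fun v => toN (vP v σ)))))
    ((Set.Finite.countable (by
      unfold Sys.rules
      exact Set.toFinite _)).union ((Set.toFinite _).countable.union
        ((Set.countable_range _).union (Set.countable_range _))))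
    ({SN, BN} ∪ ((Set.range fun t : ℕ × FS => rN t.1 t.2) ∪
      ((Set.range fun t : ℕ × ℕ => Sys.nm P (dn (Co t.1 t.2 true))) ∪
      (Set.range fun t : ℕ × ℕ × Bool => Sys.nm P (dn (Dn t.1 t.2.1 t.2.2))))))
    ((Set.toFinite _).countable.union ((Set.countable_range _).union ((Set.countable_range _).union
      (Set.countable_range _)))) ⊤
  have a1 := Set.union_subset_iff.1 hA
  have a2 := Set.union_subset_iff.1 a1.2
  have a3 := Set.union_subset_iff.1 a2.2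
  have hom : (check ZFSet.omega : PName P) ∈ π.N := π.om
  obtain ⟨x, hx⟩ := exists_point (π := π) (fun n k => a3.1 ⟨(n, k), rfl⟩)
    (fun k => (hcl rB (Or.inr (Or.inl (Or.inl rfl))) _ (query2 hom hom (π.gC k))).1)
  refine ⟨π, x, fun ρ hρ => hcl ρ (Or.inl hρ), hx, a1.1 (Or.inl rfl), a1.1 (Or.inr rfl),
    fun n σ => a2.1 ⟨(n, σ), rfl⟩, fun v hv n u => ?_, fun v hv σ => ?_, fun v hv => ?_,
    fun v hv => ?_, fun n k b => ?_⟩
  · exact (hcl _ (Or.inr (Or.inr (Or.inl ⟨(n, u), rfl⟩))) _ (query2 hv hv (π.gC 0))).1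
  · exact (hcl _ (Or.inr (Or.inr (Or.inr ⟨σ, rfl⟩))) _ (query2 hv hv (π.gC 0))).1
  · exact (hcl _ (Or.inr (Or.inl (Or.inr (Or.inl rfl)))) _ (query2 hv hv (π.gC 0))).1
  · exact (hcl _ (Or.inr (Or.inl (Or.inr (Or.inr rfl)))) _ (query2 hv hv (π.gC 0))).1
  · have h1 : Tr π (Dn n k b) := by
      rcases tr_dec (a3.2 ⟨(n, k, b), rfl⟩) (op_Dn n k b) with h | ⟨m, hm⟩
      · exact h
      · have h2 := dns_Dn n k b (π.g m).2.1 (π.g m).2.2
        rw [hm] at h2
        exact absurd h2 Set.not_nonempty_empty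
    obtain ⟨⟨j, hj⟩, h2⟩ := Set.mem_iUnion.1 ((hx _ (op_Dn n k b)).2 h1)
    exact ⟨j, hj, h2⟩

/-- The set of natural numbers as a set. -/
noncomputable def st (A : Set ℕ) : ZFSet.{0} := ZFSet.sep (fun z => ∃ k ∈ A, z = nat k) ZFSet.omega

theorem mem_st {A : Set ℕ} {z : ZFSet.{0}} : z ∈ st A ↔ ∃ k ∈ A, z = nat k := by
  rw [st, ZFSet.mem_sep]
  constructor
  · exact fun h => h.2
  · rintro ⟨k, hk, rfl⟩
    exact ⟨mem_omega_iff.2 ⟨k, rfl⟩, k, hk, rfl⟩

theorem nat_mem_st {A : Set ℕ} {k : ℕ} : nat k ∈ st A ↔ k ∈ A := by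
  rw [mem_st]
  constructor
  · rintro ⟨j, hj, h⟩
    rwa [nat_injective h]
  · exact fun h => ⟨k, h, rfl⟩

/-- The real number `n` of the point `x`, permuted by `π`. -/
noncomputable def rl' (x : X) (n : ℕ) (π : FS) : ZFSet.{0} := st {k | x n (π.1 k) = true}

/-- `w` is the function `v` with its arguments permuted by `π`. -/
def IsPm (π : FS) (v w : ZFSet.{0}) : Prop :=
  ∀ z, z ∈ w ↔ ∃ (n : ℕ) (b : ZFSet.{0}), z = pair (nat n) b ∧ pair (nat (π.1 n)) b ∈ v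

/-- The properties of the model. -/
structure IsTr (M : Set ZFSet.{0}) (x : X) (S B : ZFSet.{0}) : Prop where
  zf : IsZF M
  S_mem : S ∈ M
  mem_S : ∀ z, z ∈ S ↔ ∃ (n : ℕ) (π : FS), z = pair (nat n) (rl' x n π)
  nochoice : ∀ f ∈ M, ∀ k : ℕ, (∀ n ≥ k, ∃ π : FS, pair (nat n) (rl' x n π) ∈ f) →
    ¬ ∀ a b c, pair a b ∈ f → pair a c ∈ f → b = c
  B_mem : B ∈ M
  B_empty : ∅ ∈ B
  B_cls : ∀ v ∈ M, ZFSet.IsFunc ZFSet.omega B v → ∃ s ∈ B, ∀ w, w ∈ s ↔ ∃ π, IsPm π v w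
  B_sgl : ∀ v ∈ M, ZFSet.IsFunc ZFSet.omega B v → ∃ s ∈ B, ∀ w, w ∈ s ↔ w = v

section

variable {π : Pkg P} {x : X} (h : Good π x)

include h

theorem val_rN (n : ℕ) (σ : FS) : π.val (rN n σ) = rl' x n σ := by
  ext w
  unfold rN rl'
  rw [val_fN h.gpt (fun k => π.nat_Z k) (fun k => op_Co _ _ _), mem_st]
  refine exists_congr fun k => and_congr_right fun _ => ?_
  have h1 : π.val (check (nat k)) = nat k := π.hat_nat k
  rw [h1]

theorem mem_B {b : ZFSet.{0}} : b ∈ π.val BN ↔ ∃ c : CN, sys.HS (toN c) ∧ toN c ∈ π.N ∧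
    b = π.val (toN c) := by
  rw [π.mem_val]
  constructor
  · rintro ⟨y, hy, d, hd, -, rfl⟩
    obtain ⟨c, hc, rfl, -⟩ := el_BN.1 hd
    exact ⟨c, hc, hy, rfl⟩
  · rintro ⟨c, hc, hN, rfl⟩
    exact ⟨toN c, hN, ⊤, el_BN.2 ⟨c, hc, rfl, rfl⟩, ⟨0, le_top⟩, rfl⟩

theorem val_vP {v : PName P} (hv : v ∈ π.N) (hvs : sys.HS v)
    (hf : ZFSet.IsFunc ZFSet.omega (π.val BN) (π.val v)) (σ : FS) :
    IsPm σ (π.val v) (π.val (toN (vP v σ))) := by
  intro z
  have hnat : ∀ m : ℕ, (check (nat m) : PName P) ∈ π.N := fun m => π.nat_Z m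
  have hnat' : ∀ m : ℕ, π.val (check (nat m)) = nat m := fun m => π.hat_nat m
  rw [π.mem_val]
  constructor
  · rintro ⟨y, hy, c, hc, ⟨j, hj⟩, rfl⟩
    obtain ⟨n, u, g, h1, h2, h3, rfl, rfl⟩ := el_vP.1 hc
    have hz := π.snd_mem hy
    refine ⟨n, π.val (act (sys.ac g) (toN (ch v (σ.1 n) u))), ?_, ?_⟩
    · rw [π.val_opN (hnat n) hz, hnat']
    · rw [← hnat' (σ.1 n), ← π.val_opN (hnat _) hz, val_mem h.gpt (π.opN_mem (hnat _) hz) hv]
      have h4 : x ∈ (mv g (pcU u)).1 := (h.gpt _ (mv g (pcU u)).2.1).2 ⟨j, hj⟩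
      have h5 : pb g x ∈ cyl u := by
        have h6 : pb g x ∈ (pcU u).1 := h4
        rwa [pcU_val h3] at h6
      have h6 : x ∈ im g (BV (opN (check (nat (σ.1 n))) (toN (ch v (σ.1 n) u))) v) :=
        (ch_spec h2).2 h5
      rw [← BV_act] at h6
      have h7 := BV_congr (z := act (sys.ac g) (opN (check (nat (σ.1 n))) (toN (ch v (σ.1 n) u))))
        (fun p => Feq.refl _ p) (spt_spec hvs g h1)
      rw [h7, act_opN (sys.top g), act_check (sys.top g)] at h6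
      exact h6
  · rintro ⟨n, b, rfl, hb⟩
    have hbB : b ∈ π.val BN := (ZFSet.pair_mem_prod.1 (hf.1 hb)).2
    obtain ⟨c0, hc0, hc0N, rfl⟩ := (mem_B h).1 hbB
    have h1 := hb
    rw [← hnat' (σ.1 n), ← π.val_opN (hnat _) hc0N,
      val_mem h.gpt (π.opN_mem (hnat _) hc0N) hv] at h1
    obtain ⟨u, hu, hu'⟩ := op_BV _ _ x h1
    have hok : okv v (σ.1 n) u := ⟨c0, hc0, hu'⟩
    obtain ⟨k1, k2⟩ := ch_spec hok
    have k3 := h.fch v hv (σ.1 n) u
    have k4 := k2 hu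
    rw [← val_mem h.gpt (π.opN_mem (hnat _) k3) hv, π.val_opN (hnat _) k3, hnat'] at k4
    have k5 : π.val (toN (ch v (σ.1 n) u)) = π.val (toN c0) :=
      (hf.2 _ (mem_omega_iff.2 ⟨σ.1 n, rfl⟩)).unique k4 hb
    have hne : (cyl u).Nonempty := ⟨x, hu⟩
    obtain ⟨j, hj⟩ := (h.gpt _ (op_cyl u)).1 hu
    refine ⟨_, π.opN_mem (hnat n) k3, mv 1 (pcU u), el_vP.2 ⟨n, u, 1, (fixE (spt v)).one_mem, hok,
      hne, ?_, rfl⟩, ⟨j, ?_⟩, ?_⟩
    · have e : sys.ac (1 : G) = 1 := sys.ac.map_one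
      rw [e, act_one]
    · change (π.g j).1 ⊆ (pcU u).1
      rw [pcU_val hne]
      exact hj
    · rw [π.val_opN (hnat n) k3, hnat', k5]

theorem isTr : IsTr (sys.Ms π) x (π.val SN) (π.val BN) := by
  classical
  have hnat : ∀ m : ℕ, (check (nat m) : PName P) ∈ π.N := fun m => π.nat_Z m
  have hnat' : ∀ m : ℕ, π.val (check (nat m)) = nat m := fun m => π.hat_nat m
  have hM : IsZF (sys.Ms π) := T_ZF.main T_TRU.main T_SEP.main _ _ π h.cld
  have hvp : ∀ v ∈ sys.Ms π, ZFSet.IsFunc ZFSet.omega (π.val BN) v →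
      ∃ t, t ∈ π.N ∧ sys.HS t ∧ π.val t = v ∧ ∀ σ, IsPm σ v (π.val (toN (vP t σ))) := by
    rintro _ ⟨t, ⟨ht, hts⟩, rfl⟩ hf
    exact ⟨t, ht, hts, rfl, fun σ => val_vP h ht hts hf σ⟩
  refine
    { zf := hM
      S_mem := ⟨SN, ⟨h.sn, hs_SN⟩, rfl⟩
      mem_S := fun z => ?_
      nochoice := fun f hf k hk hfun => ?_
      B_mem := ⟨BN, ⟨h.bn, hs_BN⟩, rfl⟩
      B_empty := ?_
      B_cls := fun v hv hf => ?_
      B_sgl := fun v hv hf => ?_ }
  · unfold SN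
    rw [val_fN h.gpt (fun t => π.opN_mem (hnat _) (h.rn _ _)) fun _ => op_univ]
    constructor
    · rintro ⟨⟨n, σ⟩, -, rfl⟩
      exact ⟨n, σ, by rw [π.val_opN (hnat _) (h.rn _ _), hnat', val_rN h]⟩
    · rintro ⟨n, σ, rfl⟩
      exact ⟨(n, σ), trivial, by rw [π.val_opN (hnat _) (h.rn _ _), hnat', val_rN h]⟩
  · obtain ⟨t, ⟨ht, hts⟩, rfl⟩ := hf
    obtain ⟨_, ⟨E, rfl⟩, hE⟩ := hts.sym
    obtain ⟨n, hn⟩ := Infinite.exists_notMem_finset (E ∪ Finset.range k)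
    rw [Finset.mem_union, not_or, Finset.mem_range, not_lt] at hn
    obtain ⟨σ, hσ⟩ := hk n hn.2
    have h1 := hσ
    rw [← val_rN h, ← hnat' n, ← π.val_opN (hnat n) (h.rn _ _),
      val_mem h.gpt (π.opN_mem (hnat n) (h.rn _ _)) ht] at h1
    obtain ⟨u, hu, hu'⟩ := op_BV _ _ x h1
    obtain ⟨M, hM'⟩ := (u.image fun c => c.2.1).finite_toSet.bddAbove
    obtain ⟨p, hp, hp'⟩ := h.g1 n (M + 1) true
    obtain ⟨q, hq, hq'⟩ := h.g1 n (M + 1) false
    have hsw : Equiv.swap p q ∈ FS := by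
      refine (Set.toFinite ({p, q} : Set ℕ)).subset fun j hj => ?_
      by_contra hc
      rw [Set.mem_insert_iff, Set.mem_singleton_iff, not_or] at hc
      exact hj (Equiv.swap_apply_of_ne_of_ne hc.1 hc.2)
    set g : G := Function.update 1 n ⟨Equiv.swap p q, hsw⟩ with hg
    have hgn : g n = ⟨Equiv.swap p q, hsw⟩ := Function.update_self _ _ _
    have hgn' : ∀ m, m ≠ n → g m = 1 := fun m hm => Function.update_of_ne hm _ _
    have hgE : g ∈ fixE E := fun m hm => hgn' m fun e => hn.1 (e ▸ hm)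
    have hgx : pb g x ∈ cyl u := by
      intro c hc
      change x c.1 ((g c.1).1 c.2.1) = _
      have h2 := hM' (Finset.mem_coe.2 (Finset.mem_image_of_mem (fun c => c.2.1) hc))
      by_cases hcn : c.1 = n
      · rw [hcn, hgn]
        change x n (Equiv.swap p q c.2.1) = _
        rw [Equiv.swap_apply_of_ne_of_ne (by omega) (by omega), ← hcn]
        exact hu c hc
      · rw [hgn' _ hcn]
        exact hu c hc
    have h2 : x ∈ im g (BV (opN (check (nat n)) (rN n σ)) t) := hu' hgx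
    rw [← BV_act] at h2
    have h3 := BV_congr (z := act (sys.ac g) (opN (check (nat n)) (rN n σ)))
      (z' := opN (check (nat n)) (rN n (g n * σ))) (fun p => by
        rw [act_opN (sys.top g), act_check (sys.top g)]
        exact feq_opN (Feq.refl _ _) (act_rN g n σ p)) (hE g hgE)
    rw [h3, ← val_mem h.gpt (π.opN_mem (hnat n) (h.rn _ _)) ht, π.val_opN (hnat n) (h.rn _ _),
      hnat', val_rN h] at h2
    have h4 := hfun _ _ _ hσ h2
    have h5 : nat (σ.1.symm p) ∈ rl' x n σ := by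
      refine nat_mem_st.2 ?_
      change x n (σ.1 (σ.1.symm p)) = true
      rw [Equiv.apply_symm_apply]
      exact hp'
    rw [h4] at h5
    have h6 := nat_mem_st.1 h5
    change x n ((g n).1 (σ.1 (σ.1.symm p))) = true at h6
    rw [Equiv.apply_symm_apply, hgn] at h6
    change x n (Equiv.swap p q p) = true at h6
    rw [Equiv.swap_apply_left, hq'] at h6
    cases h6
  · refine (mem_B h).2 ⟨.nil, ?_, T_TRU.emp_mem π, ?_⟩
    · change sys.HS emp
      refine sys.hs_iff.2 ⟨⟨_, ⟨∅, rfl⟩, fun g _ p => ?_⟩, fun y c hy => ?_⟩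
      · rw [act_emp]
        exact Feq.refl _ _
      · obtain ⟨i, -, -⟩ := hy
        exact i.elim
    · ext z
      change _ ↔ z ∈ π.val emp
      rw [π.mem_val]
      constructor
      · exact fun h => absurd h (ZFSet.notMem_empty _)
      · rintro ⟨y, -, c, ⟨i, -, -⟩, -⟩
        exact i.elim
  · obtain ⟨t, ht, hts, rfl, hvp⟩ := hvp v hv hf
    refine ⟨π.val (toN (cls t)), (mem_B h).2 ⟨cls t, hs_cls t, h.fcls t ht, rfl⟩, fun w => ?_⟩
    rw [π.mem_val]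
    constructor
    · rintro ⟨y, -, c, hc, -, rfl⟩
      obtain ⟨σ, rfl, rfl⟩ := el_cls.1 hc
      exact ⟨σ, hvp σ⟩
    · rintro ⟨σ, hw⟩
      refine ⟨_, h.fvp t ht σ, ⊤, el_cls.2 ⟨σ, rfl, rfl⟩, ⟨0, le_top⟩, ?_⟩
      ext z
      rw [hvp σ z, hw z]
  · obtain ⟨t, ht, hts, rfl, hvp⟩ := hvp v hv hf
    have hone : π.val (toN (vP t 1)) = π.val t := by
      ext z
      rw [hvp 1 z]
      constructor
      · rintro ⟨n, b, rfl, hb⟩
        exact hb
      · intro hz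
        obtain ⟨a, ha, b, hb, rfl⟩ := ZFSet.mem_prod.1 (hf.1 hz)
        obtain ⟨n, rfl⟩ := mem_omega_iff.1 ha
        exact ⟨n, b, rfl, hz⟩
    refine ⟨π.val (toN (sgl t)), (mem_B h).2 ⟨sgl t, hs_sgl t, h.fsgl t ht, rfl⟩, fun w => ?_⟩
    rw [π.mem_val]
    constructor
    · rintro ⟨y, -, c, hc, -, rfl⟩
      obtain ⟨rfl, rfl⟩ := el_sgl.1 hc
      exact hone
    · rintro rfl
      exact ⟨_, h.fvp t ht 1, ⊤, el_sgl.2 ⟨rfl, rfl⟩, ⟨0, le_top⟩, hone⟩

end

theorem exists_model : ∃ M : Set ZFSet.{0}, M.Countable ∧ ∃ x S B, IsTr M x S B := by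
  obtain ⟨π, x, h⟩ := exists_good
  exact ⟨_, (π.cnt.mono fun _ h => h.1).image _, x, _, _, isTr h⟩

end Pool.Agent.R602.WT
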