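import Pool.Agent.R602.WT.Init
import Pool.Agent.R602.WT.Mod

/-!
# The two relations
-/

set_option autoImplicit false
set_option linter.unreachableTactic false
set_option linter.unusedTactic false
set_option linter.unusedSectionVars false

namespace Pool.Agent.R602.WT

open Pool.Agent.W868
open ZFSet (pair)

theorem rl_eq (M : Set ZFSet.{0}) : Rl M (fun v w => v = w) where
  dfn := Dfn.eq (DfnF.proj 0) (DfnF.proj 1)
  refl _ _ _ := rfl
  symm _ _ _ _ h := h.symm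
  trans _ _ _ h h' := h.trans h'
  compat := by
    rintro v _ u u' h A B hv hu - hu' rfl h1 h2 h3
    refine func_ext hu hu' fun n y hy => ?_
    obtain ⟨x, hx, -⟩ := hv.2 n (func_mem hu hy).1
    obtain ⟨y', hy', -⟩ := hu'.2 n (func_mem hu hy).1
    rwa [h1 n x y y' hx (h2 n x y hx hy) (h3 n x y' hx hy')]

/-- The sequence `w` is `v ∘ π` for a finitely supported permutation `π`. -/
def FsE (v w : ZFSet.{0}) : Prop := ∃ π : FS, IsPm π v w

theorem IsPm.iff {π : FS} {v w b : ZFSet.{0}} {n : ℕ} (h : IsPm π v w) :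
    pair (nat n) b ∈ w ↔ pair (nat (π.1 n)) b ∈ v := by
  rw [h]
  constructor
  · rintro ⟨m, c, e, h1⟩
    obtain ⟨e1, rfl⟩ := ZFSet.pair_inj.1 e
    rwa [nat_injective e1]
  · intro h1
    exact ⟨n, b, rfl, h1⟩

theorem nat_mem_omega (n : ℕ) : nat n ∈ ZFSet.omega := mem_omega_iff.2 ⟨n, rfl⟩

theorem nat_mem_nat {m n : ℕ} : nat m ∈ nat n ↔ m < n := by
  induction n with
  | zero => exact iff_of_false (ZFSet.notMem_empty _) (Nat.not_lt_zero _)
  | succ n ih =>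
    change nat m ∈ (insert (nat n) (nat n) : ZFSet.{0}) ↔ _
    rw [ZFSet.mem_insert_iff, ih, Nat.lt_succ_iff, Nat.le_iff_lt_or_eq, or_comm]
    exact or_congr_right ⟨fun h => nat_injective h, fun h => by rw [h]⟩

theorem perm_inv (π : Equiv.Perm ℕ) (n : ℕ) : π (π⁻¹ n) = n := π.apply_symm_apply n

theorem exists_perm {p : ZFSet.{0}} (hp : IsFinPerm p) :
    ∃ π : FS, ∀ n m : ℕ, pair (nat n) (nat m) ∈ p ↔ π.1 n = m := by
  obtain ⟨⟨⟨hf, hi⟩, hs⟩, k, hk, hk'⟩ := hp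
  obtain ⟨k, rfl⟩ := mem_omega_iff.1 hk
  have h1 : ∀ n : ℕ, ∃ m : ℕ, pair (nat n) (nat m) ∈ p := by
    intro n
    obtain ⟨b, hb, -⟩ := hf.2 (nat n) (nat_mem_omega n)
    obtain ⟨m, rfl⟩ := mem_omega_iff.1 (ZFSet.pair_mem_prod.1 (hf.1 hb)).2
    exact ⟨m, hb⟩
  choose f hf' using h1
  have h2 : ∀ n m, pair (nat n) (nat m) ∈ p ↔ f n = m := by
    intro n m
    constructor
    · intro h
      exact nat_injective ((hf.2 (nat n) (nat_mem_omega n)).unique (hf' n) h)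
    · rintro rfl
      exact hf' n
  have hinj : Function.Injective f := fun a b hab => nat_injective (hi _ _ _ (hf' a) (by
    rw [hab]
    exact hf' b))
  have hsur : Function.Surjective f := by
    intro m
    obtain ⟨a, ha, hb⟩ := hs (nat m) (nat_mem_omega m)
    obtain ⟨n, rfl⟩ := mem_omega_iff.1 ha
    exact ⟨n, (h2 n m).1 hb⟩
  refine ⟨⟨Equiv.ofBijective f ⟨hinj, hsur⟩, ?_⟩, h2⟩
  refine mem_FS.2 ((Set.finite_lt_nat k).subset fun n hn => ?_)
  by_contra hc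
  refine hn ((h2 n n).1 (hk' (nat n) (nat_mem_omega n) fun h => hc ?_))
  exact nat_mem_nat.1 h

section

variable {M : Set ZFSet.{0}} (hM : IsZF M)

include hM

theorem exists_fin (s : Finset ZFSet.{0}) (hs : ∀ x ∈ s, x ∈ M) :
    ∃ y ∈ M, ∀ z, z ∈ y ↔ z ∈ s := by
  classical
  induction s using Finset.induction_on with
  | empty => exact ⟨∅, hM.empty_mem, by simp⟩
  | insert a s _ ih =>
    obtain ⟨y, hy, h⟩ := ih fun x hx => hs x (Finset.mem_insert_of_mem hx)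
    refine ⟨insert a y, hM.insert_mem (hs a (Finset.mem_insert_self _ _)) hy, fun z => ?_⟩
    rw [ZFSet.mem_insert_iff, Finset.mem_insert, h]

theorem exists_pset (π : FS) : ∃ p ∈ M, IsFinPerm p ∧
    ∀ z, z ∈ p ↔ ∃ n : ℕ, z = pair (nat n) (nat (π.1 n)) := by
  classical
  have hB := hM.base
  have hom := hM.infinity
  obtain ⟨k, hk⟩ := (mem_FS.1 π.2).bddAbove
  have hkM := hM.nat_mem (k + 1)
  obtain ⟨y, hy, hy'⟩ := exists_fin hM ((Finset.range (k + 1)).image fun n =>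
    pair (nat n) (nat (π.1 n))) (by
      intro x hx
      obtain ⟨n, -, rfl⟩ := Finset.mem_image.1 hx
      exact hM.pair_mem (hM.nat_mem _) (hM.nat_mem _))
  have h1 : Dfn M M fun w : Fin 2 → ZFSet.{0} => w 0 ∉ nat (k + 1) ∧ w 0 = w 1 := (by
      (repeat' first
        | assumption
        | exact DfnF.proj _
        | exact DfnF.const (by assumption)
        | apply hB.isFunc' | apply hB.isBij'
        | apply Dfn.iff | apply Dfn.not | apply Dfn.and | apply Dfn.or | apply Dfn.imp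
        | apply hB.bex | apply hB.ball | apply hB.subset'
        | apply Dfn.ex | apply Dfn.all | apply Dfn.eq | apply Dfn.mem | apply hB.pair'
        | apply hB.single'))
  obtain ⟨q, hq, hq1, hq2⟩ := hM.rel_mem hom hom (Q := fun n m => n ∉ nat (k + 1) ∧ n = m) h1
  have key : ∀ z, z ∈ y ∪ q ↔ ∃ n : ℕ, z = pair (nat n) (nat (π.1 n)) := by
    intro z
    rw [ZFSet.mem_union, hy']
    constructor
    · rintro (h | h)
      · obtain ⟨n, -, rfl⟩ := Finset.mem_image.1 h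
        exact ⟨n, rfl⟩
      · obtain ⟨a, ha, b, -, rfl⟩ := ZFSet.mem_prod.1 (hq1 h)
        obtain ⟨n, rfl⟩ := mem_omega_iff.1 ha
        obtain ⟨-, -, h2, rfl⟩ := (hq2 _ _).1 h
        refine ⟨n, ?_⟩
        have h3 : π.1 n = n := by
          by_contra hc
          have h4 := hk (show n ∈ {k | π.1 k ≠ k} from hc)
          exact h2 (nat_mem_nat.2 (by omega))
        rw [h3]
    · rintro ⟨n, rfl⟩
      by_cases hn : n < k + 1
      · exact Or.inl (Finset.mem_image.2 ⟨n, Finset.mem_range.2 hn, rfl⟩)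
      · refine Or.inr ((hq2 _ _).2 ⟨nat_mem_omega _, nat_mem_omega _, fun h => hn (nat_mem_nat.1 h),
          ?_⟩)
        have h3 : π.1 n = n := by
          by_contra hc
          have h4 := hk (show n ∈ {k | π.1 k ≠ k} from hc)
          omega
        rw [h3]
  refine ⟨y ∪ q, hM.union_mem hy hq, ⟨⟨⟨⟨?_, ?_⟩, ?_⟩, ?_⟩, nat (k + 1), nat_mem_omega _, ?_⟩, key⟩
  · intro z hz
    obtain ⟨n, rfl⟩ := (key z).1 hz
    exact ZFSet.mem_prod.2 ⟨_, nat_mem_omega _, _, nat_mem_omega _, rfl⟩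
  · intro a ha
    obtain ⟨n, rfl⟩ := mem_omega_iff.1 ha
    refine ⟨nat (π.1 n), (key _).2 ⟨n, rfl⟩, fun b hb => ?_⟩
    obtain ⟨m, e⟩ := (key _).1 hb
    obtain ⟨e1, rfl⟩ := ZFSet.pair_inj.1 e
    rw [nat_injective e1]
  · intro a b c ha hb
    obtain ⟨n, e⟩ := (key _).1 ha
    obtain ⟨rfl, e1⟩ := ZFSet.pair_inj.1 e
    obtain ⟨m, e'⟩ := (key _).1 hb
    obtain ⟨rfl, e2⟩ := ZFSet.pair_inj.1 e'
    rw [π.1.injective (nat_injective (e1.symm.trans e2))]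
  · intro b hb
    obtain ⟨m, rfl⟩ := mem_omega_iff.1 hb
    exact ⟨nat (π.1.symm m), nat_mem_omega _, (key _).2 ⟨π.1.symm m, by
      rw [Equiv.apply_symm_apply]⟩⟩
  · intro a ha hak
    obtain ⟨n, rfl⟩ := mem_omega_iff.1 ha
    refine (key _).2 ⟨n, ?_⟩
    have h3 : π.1 n = n := by
      by_contra hc
      have h4 := hk (show n ∈ {k | π.1 k ≠ k} from hc)
      exact hak (nat_mem_nat.2 (by omega))
    rw [h3]

theorem dfn_FsE : Dfn M M fun w : Fin 2 → ZFSet.{0} => FsE (w 0) (w 1) := by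
  have hB := hM.base
  have hom := hM.infinity
  have h : Dfn M M fun w : Fin 2 → ZFSet.{0} => ∃ p ∈ M,
      (IsBij ZFSet.omega ZFSet.omega p ∧
        ∃ k ∈ ZFSet.omega, ∀ n ∈ ZFSet.omega, n ∉ k → pair n n ∈ p) ∧
      (∀ z ∈ w 1, ∃ n ∈ ZFSet.omega, ∃ b ∈ M, z = pair n b ∧ ∃ m ∈ ZFSet.omega,
        pair n m ∈ p ∧ pair m b ∈ w 0) ∧
      ∀ n ∈ ZFSet.omega, ∀ m ∈ ZFSet.omega, ∀ b ∈ M, pair n m ∈ p → pair m b ∈ w 0 →
        pair n b ∈ w 1 := (by
            (repeat' first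
              | assumption
              | exact DfnF.proj _
              | exact DfnF.const (by assumption)
              | apply hB.isFunc' | apply hB.isBij'
              | apply Dfn.iff | apply Dfn.not | apply Dfn.and | apply Dfn.or | apply Dfn.imp
              | apply hB.bex | apply hB.ball | apply hB.subset'
              | apply Dfn.ex | apply Dfn.all | apply Dfn.eq | apply Dfn.mem | apply hB.pair'
              | apply hB.single'))
  refine h.congr fun v hv => ?_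
  constructor
  · rintro ⟨p, hp, hp1, h1, h2⟩
    obtain ⟨π, hπ⟩ := exists_perm hp1
    refine ⟨π, fun z => ⟨fun hz => ?_, ?_⟩⟩
    · obtain ⟨n, hn, b, hb, rfl, m, hm, h3, h4⟩ := h1 z hz
      obtain ⟨n, rfl⟩ := mem_omega_iff.1 hn
      obtain ⟨m, rfl⟩ := mem_omega_iff.1 hm
      refine ⟨n, b, rfl, ?_⟩
      rwa [(hπ n m).1 h3]
    · rintro ⟨n, b, rfl, hb⟩
      exact h2 _ (nat_mem_omega _) _ (nat_mem_omega _) b
        (hM.of_pair_mem (hM.trans _ (hv 0) _ hb)).2 ((hπ n _).2 rfl) hb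
  · rintro ⟨π, hπ⟩
    obtain ⟨p, hp, hp1, hp2⟩ := exists_pset hM π
    refine ⟨p, hp, hp1, fun z hz => ?_, ?_⟩
    · obtain ⟨n, b, rfl, hb⟩ := (hπ z).1 hz
      exact ⟨_, nat_mem_omega n, b, (hM.of_pair_mem (hM.trans _ (hv 1) _ hz)).2, rfl, _,
        nat_mem_omega _, (hp2 _).2 ⟨n, rfl⟩, hb⟩
    · intro n hn m hm b _ h3 h4
      obtain ⟨j, e⟩ := (hp2 _).1 h3
      obtain ⟨rfl, rfl⟩ := ZFSet.pair_inj.1 e
      exact hπ.iff.2 h4

theorem rl_FsE : Rl M FsE where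
  dfn := dfn_FsE hM
  refl := by
    intro v A hv
    refine ⟨1, fun z => ⟨fun hz => ?_, ?_⟩⟩
    · obtain ⟨a, ha, b, -, rfl⟩ := ZFSet.mem_prod.1 (hv.1 hz)
      obtain ⟨n, rfl⟩ := mem_omega_iff.1 ha
      exact ⟨n, b, rfl, hz⟩
    · rintro ⟨n, b, rfl, hb⟩
      exact hb
  symm := by
    rintro v w A hv ⟨π, hπ⟩
    refine ⟨π⁻¹, fun z => ⟨fun hz => ?_, ?_⟩⟩
    · obtain ⟨a, ha, b, -, rfl⟩ := ZFSet.mem_prod.1 (hv.1 hz)
      obtain ⟨n, rfl⟩ := mem_omega_iff.1 ha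
      refine ⟨n, b, rfl, hπ.iff.2 ?_⟩
      change pair (nat (π.1 (π.1⁻¹ n))) b ∈ v
      rwa [perm_inv]
    · rintro ⟨n, b, rfl, hb⟩
      have h1 := hπ.iff.1 hb
      change pair (nat (π.1 (π.1⁻¹ n))) b ∈ v at h1
      rwa [perm_inv] at h1
  trans := by
    rintro u v w ⟨π, hπ⟩ ⟨σ, hσ⟩
    refine ⟨π * σ, fun z => ?_⟩
    rw [hσ z]
    refine exists_congr fun n => exists_congr fun b => and_congr_right fun _ => ?_
    exact hπ.iff
  compat := by
    rintro v v' u u' h A B hv hu hv' hu' ⟨π, hπ⟩ h1 h2 h3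
    have key : ∀ (n : ℕ) (b : ZFSet.{0}), pair (nat n) b ∈ u' ↔ pair (nat (π.1 n)) b ∈ u := by
      intro n b
      obtain ⟨x, hx, -⟩ := hv'.2 (nat n) (nat_mem_omega n)
      obtain ⟨y', hy', hy'2⟩ := hu'.2 (nat n) (nat_mem_omega n)
      obtain ⟨y, hy, hy2⟩ := hu.2 (nat (π.1 n)) (nat_mem_omega _)
      have hx' := hπ.iff.1 hx
      have e : y = y' := h1 _ x y y' hx' (h2 _ x y hx' hy) (h3 _ x y' hx hy')
      constructor
      · intro hb
        rwa [hy'2 b hb, ← e]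
      · intro hb
        rwa [hy2 b hb, e]
    refine ⟨π, fun z => ⟨fun hz => ?_, ?_⟩⟩
    · obtain ⟨a, ha, b, -, rfl⟩ := ZFSet.mem_prod.1 (hu'.1 hz)
      obtain ⟨n, rfl⟩ := mem_omega_iff.1 ha
      exact ⟨n, b, rfl, (key n b).1 hz⟩
    · rintro ⟨n, b, rfl, hb⟩
      exact (key n b).2 hb

theorem isTrees {W ν : ZFSet.{0}} (h : TA M (fun v w => v = w) W ν) : IsTrees M W ∅ ν :=
  ⟨TA.isAlg hM (rl_eq M) h, fun A a α hA => TA.exists_hom hM (rl_eq M) h hA
    fun v w b _ _ e hb => by rwa [← e]⟩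

theorem isWeakTrees {T τ : ZFSet.{0}} (h : TA M FsE T τ) : IsWeakTrees M T ∅ τ := by
  refine ⟨TA.isAlg hM (rl_FsE hM) h, fun v w hv hw p hp hp1 hp2 b hb => ?_,
    fun A a α hA hW => TA.exists_hom hM (rl_FsE hM) h hA fun v w b hv hw hE hb => ?_⟩
  · refine TA.equ hM (rl_FsE hM) h hw ?_ hb
    obtain ⟨π, hπ⟩ := exists_perm hp1
    refine ⟨π, fun z => ⟨fun hz => ?_, ?_⟩⟩
    · obtain ⟨a, ha, b, -, rfl⟩ := ZFSet.mem_prod.1 (hw.2.1 hz)
      obtain ⟨n, rfl⟩ := mem_omega_iff.1 ha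
      obtain ⟨c, hc, -⟩ := hv.2.2 (nat (π.1 n)) (nat_mem_omega _)
      have h1 := hp2 (nat n) _ c ((hπ n _).2 rfl) hc
      refine ⟨n, b, rfl, ?_⟩
      rwa [(hw.2.2 _ (nat_mem_omega n)).unique hz h1]
    · rintro ⟨n, b, rfl, hb⟩
      exact hp2 (nat n) _ b ((hπ n _).2 rfl) hb
  · obtain ⟨π, hπ⟩ := hE
    obtain ⟨p, hp, hp1, hp2⟩ := exists_pset hM π
    refine hW v w hv hw p hp hp1 (fun n m a hnm hm => ?_) b hb
    obtain ⟨j, e⟩ := (hp2 _).1 hnm
    obtain ⟨rfl, rfl⟩ := ZFSet.pair_inj.1 e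
    exact hπ.iff.2 hm

end

end Pool.Agent.R602.WT
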